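import Pool.Agent.Work.MP_0a826e_ag.R.Pj4

/-!
Weighted endgame, first part: the zero classes of the top form of a counterexample are totally
invariant under an iterate of the top map, and such classes lie on the coordinate axes, after a
shear when one weight is `1`.
-/

namespace Pool.Agent.Work.MP_0a826e_ag.W

open MvPolynomial Pool.Agent.Work.MP_0a826e_ag.R

variable {k : Type} [Field k] {w : Fin 2 → ℕ} {d D M : ℕ} {f F g G : Fin 2 → A2 k}
  {P Φ : A2 k}

theorem ne01 : (![0, 1] : Pt k) ≠ 0 := fun e => by simpa using congrFun e 1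

theorem ne10 : (![1, 0] : Pt k) ≠ 0 := fun e => by simpa using congrFun e 0

theorem nez1 (z : k) : (![z, 1] : Pt k) ≠ 0 := fun e => by simpa using congrFun e 1

/-- classes of points -/
def st (k : Type) [Field k] (w : Fin 2 → ℕ) : Setoid (Pt k) :=
  ⟨Cls w, Cls.refl _, Cls.symm, Cls.trans⟩

theorem iter_zero (hw : Pos w) (hd : 1 ≤ d) (hf : Reg w d f F) (n : ℕ) : (ev F)^[n] 0 = 0 :=
  Function.iterate_fixed (BM_ev_zero hw hd hf) n

theorem exists_period {X : Type} (φ : X → X) {B : Set X} (hB : B.Finite)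
    (h1 : ∀ b ∈ B, φ b ∈ B) (h2 : ∀ b ∈ B, ∀ x, φ x = φ b → x = b) :
    ∃ n, 1 ≤ n ∧ ∀ b ∈ B, φ^[n] b = b := by
  classical
  have := hB.to_subtype
  have hm : Set.MapsTo φ B B := h1
  have hi : Function.Injective (hm.restrict φ B B) := fun x y e =>
    Subtype.ext (h2 _ y.2 _ (congrArg Subtype.val e))
  let σ : Equiv.Perm B := Equiv.ofBijective _ (Finite.injective_iff_bijective.1 hi)
  refine ⟨orderOf σ, orderOf_pos σ, fun b hb => ?_⟩
  have e : (hm.restrict φ B B)^[orderOf σ] ⟨b, hb⟩ = ⟨b, hb⟩ := by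
    have e0 : (⇑σ)^[orderOf σ] ⟨b, hb⟩ = ⟨b, hb⟩ := by
      rw [← Equiv.Perm.coe_pow, pow_orderOf_eq_one]
      rfl
    exact e0
  have e' := congrArg Subtype.val e
  rwa [hm.coe_iterate_restrict] at e'

/-- the zero classes are totally invariant under an iterate -/
theorem tot_inv [IsAlgClosed k] [CharZero k] (hw : Pos w) (hd : 1 ≤ d) (hf : Reg w d f F)
    (hfin : ∀ u, u ≠ 0 → eval u Φ = 0 → {z : k | ∃ n, Cls w u ((ev F)^[n] ![z, 1])}.Finite)
    (hΦ : IsHom w M Φ) (h0 : Φ ≠ 0) :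
    ∃ N, 3 ≤ N ∧ ∀ b v, b ≠ 0 → eval b Φ = 0 → Cls w b (ev (iter F N) v) → Cls w b v := by
  let π : Pt k → Quotient (st k w) := Quotient.mk _
  have eq : ∀ u v, π u = π v ↔ Cls w u v := fun u v => Quotient.eq
  let φ : Quotient (st k w) → Quotient (st k w) :=
    Quotient.map (ev F) fun _ _ h => Cls.map hf.bnd h
  have en : ∀ n u, φ^[n] (π u) = π ((ev F)^[n] u) := fun n => by
    induction n with
    | zero => exact fun _ => rfl
    | succ n ih => exact fun u => ih (ev F u)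
  have hs : Function.Surjective φ := fun q => by
    obtain ⟨v, rfl⟩ := q.exists_rep
    obtain ⟨u, rfl⟩ := hf.toTop.surjective hw.pos hd v
    exact ⟨π u, rfl⟩
  let B : Set (Quotient (st k w)) := {q | ∃ u, u ≠ 0 ∧ eval u Φ = 0 ∧ ∃ n, φ^[n] q = π u}
  have nzB : ∀ v, π v ∈ B → v ≠ 0 := by
    rintro v ⟨u, hu, -, n, e⟩ rfl
    rw [en, iter_zero hw hd hf] at e
    exact ((eq _ _).1 e.symm).ne_zero hu rfl
  have hB : B.Finite := by
    obtain ⟨u, c, hc, hu, e⟩ := fl hw hΦ h0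
    refine ((Set.finite_iUnion fun j => (hfin (u j) (hu j) ((fl_zero hw hc hu e (hu j)).2
      ⟨j, Cls.refl _ _⟩)).image fun z => π ![z, 1]).insert (π ![1, 0])).subset fun q hq => ?_
    obtain ⟨v, rfl⟩ := q.exists_rep
    rcases exists_cls hw.pos (nzB v hq) with ⟨z, h⟩ | h
    · obtain ⟨u', hu', e', n, e''⟩ := hq
      obtain ⟨j, hj⟩ := (fl_zero hw hc hu e hu').1 e'
      refine Or.inr (Set.mem_iUnion.2 ⟨j, z, ⟨n, ?_⟩, (eq _ _).2 h⟩)
      exact hj.trans (((eq _ _).1 (e''.symm.trans (en n v))).trans (h.symm.iterate hf.bnd n))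
    · exact Or.inl ((eq _ _).2 h.symm)
  obtain ⟨p1, p2⟩ := back_perm φ hs hB fun x ⟨u, hu, e, n, h⟩ => ⟨u, hu, e, n + 1, h⟩
  obtain ⟨n, hn, hp⟩ := exists_period φ hB p1 p2
  refine ⟨n * 3, by omega, fun b v hb e h => ?_⟩
  rw [ev_iter, ← eq, ← en] at h
  have m : π v ∈ B := ⟨b, hb, e, _, h.symm⟩
  rw [Function.iterate_mul, Function.iterate_fixed (hp _ m)] at h
  exact (eq _ _).1 h

theorem root_of_pow {A B : A2 k} {c : k} {n : ℕ} (hn : n ≠ 0) (hc : c ≠ 0)
    (h : A ^ n = C c * B ^ n) : ∃ c' : k, c' ≠ 0 ∧ A = C c' * B := by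
  have h1 : B ∣ A := (UniqueFactorizationMonoid.pow_dvd_pow_iff_dvd hn).1 ⟨C c, by rw [h, mul_comm]⟩
  have h2 : A ∣ B := (UniqueFactorizationMonoid.pow_dvd_pow_iff_dvd hn).1 ⟨C c⁻¹, by
    rw [h, mul_comm, ← mul_assoc, ← map_mul, inv_mul_cancel₀ hc, map_one, one_mul]⟩
  obtain ⟨u, hu⟩ := associated_of_dvd_dvd h1 h2
  obtain ⟨c', hc', e⟩ := isUnit_iff_C.1 u.isUnit
  exact ⟨c', hc', by rw [← hu, e, mul_comm]⟩

/-- a totally invariant class -/
theorem ram [IsAlgClosed k] [CharZero k] (hw : Pos w) (hD : 1 ≤ D) (hg : Reg w D g G) {b : Pt k}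
    (hb : b ≠ 0) (h : ∀ v, Cls w b (ev G v) → Cls w b v) :
    ∃ c : k, c ≠ 0 ∧ aeval G (lu w b) = C c * lu w b ^ D := by
  obtain ⟨c, hc, e⟩ := fl2 hw ((lu_isHom w b).aeval_top hg.bnd hD)
    (hg.toTop.aeval_ne_zero hw.pos hD (lu_ne_zero hw hb)) hb fun u hu e =>
      h u ((eval_lu_eq_zero hw hb (BM_ev_ne hg hu)).1 (by rwa [eval_aeval_ev] at e))
  rw [pow_mul (lu w b)] at e
  exact root_of_pow (Nat.mul_pos (hw.pos 0) (hw.pos 1)).ne' hc e

theorem top_comp_ne [IsAlgClosed k] (hw : Pos w) (hD : 1 ≤ D) (hg : Reg w D g G) (i : Fin 2) :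
    G i ≠ 0 := by
  have := hg.toTop.aeval_ne_zero hw.pos hD (X_ne_zero i)
  rwa [aeval_X] at this

theorem dh_add (A B : A2 k) : dh (A + B) = dh A + dh B := map_add _ _ _

theorem dh_sub (A B : A2 k) : dh (A - B) = dh A - dh B := map_sub _ _ _

theorem dh_mul (A B : A2 k) : dh (A * B) = dh A * dh B := map_mul _ _ _

theorem dh_pow (A : A2 k) (n : ℕ) : dh (A ^ n) = dh A ^ n := map_pow _ _ _

theorem dh_C (c : k) : dh (C c : A2 k) = Polynomial.C c := by simp [dh]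

theorem dh_lu (w : Fin 2 → ℕ) (z : k) :
    dh (lu w ![z, 1]) = Polynomial.X ^ w 1 - Polynomial.C (z ^ w 1) := by
  simp [dh, lu]

theorem aeval_lu (w : Fin 2 → ℕ) (G : Fin 2 → A2 k) (z : k) :
    aeval G (lu w ![z, 1]) = G 0 ^ w 1 - C (z ^ w 1) * G 1 ^ w 0 := by
  simp [lu]

theorem coprime_of_no_root [IsAlgClosed k] {a b : Polynomial k}
    (h : ∀ z, a.eval z = 0 → b.eval z = 0 → False) : IsCoprime a b := by
  rw [Polynomial.isCoprime_iff_aeval_ne_zero_of_isAlgClosed k k]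
  intro z
  by_contra e
  rw [not_or, not_not, not_not] at e
  exact h z (by simpa using e.1) (by simpa using e.2)

/-- both weights at least `2`: no totally invariant class off the axes -/
theorem no_generic [IsAlgClosed k] [CharZero k] (hw : Pos w) (h1 : 2 ≤ w 1) (h0 : 3 ≤ w 0)
    (hD : 8 ≤ D) (hg : Reg w D g G) {z : k} (hz : z ≠ 0)
    (h : ∀ v, Cls w ![z, 1] (ev G v) → Cls w ![z, 1] v) : False := by
  have hD1 : 1 ≤ D := by omega
  obtain ⟨c, hc, e⟩ := ram hw hD1 hg (nez1 z) h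
  rw [aeval_lu] at e
  have e' := congrArg dh e
  rw [dh_sub, dh_mul, dh_mul, dh_pow, dh_pow, dh_pow, dh_C, dh_C, dh_lu] at e'
  have n : ∀ i, dh (G i) ≠ 0 := fun i =>
    (hg.bnd.isHom i).dh_ne_zero (hw.pos 1) (top_comp_ne hw hD1 hg i)
  have dg : (Polynomial.X ^ w 1 - Polynomial.C (z ^ w 1) : Polynomial k).natDegree = w 1 :=
    Polynomial.natDegree_X_pow_sub_C
  have := Polynomial.flt_catalan (k := k) (p := w 1) (q := w 0) (r := D) (by omega) (by omega)
    (by omega) (by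
      obtain ⟨a, ha⟩ := Nat.exists_eq_add_of_le h1
      obtain ⟨b, hb⟩ := Nat.exists_eq_add_of_le h0
      obtain ⟨c, hc⟩ := Nat.exists_eq_add_of_le hD
      rw [ha, hb, hc]
      nlinarith [Nat.zero_le (a * b), Nat.zero_le (a * c), Nat.zero_le (b * c),
        Nat.zero_le (a * b * c)])
    (Nat.cast_ne_zero.2 (by omega)) (Nat.cast_ne_zero.2 (by omega))
    (Nat.cast_ne_zero.2 (by omega)) (n 0) (n 1)
    (c := Polynomial.X ^ w 1 - Polynomial.C (z ^ w 1)) (fun q => by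
      rw [q, Polynomial.natDegree_zero] at dg
      omega)
    (coprime_of_no_root fun t a b => nez1 t (hg.nz _ (funext fun i => by
      rw [eval_dh] at a b
      fin_cases i
      exacts [a, b])))
    (u := 1) (v := -z ^ w 1) (w := -c) one_ne_zero (neg_ne_zero.2 (pow_ne_zero _ hz))
    (neg_ne_zero.2 hc) (by
      rw [map_neg, map_neg, map_one]
      linear_combination e')
  omega

/-- second weight `1`: at most one totally invariant class off the axis `y = 0` -/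
theorem one_generic [IsAlgClosed k] [CharZero k] (hw : Pos w) (h1 : w 1 = 1) (h0 : 2 ≤ w 0)
    (hD : 8 ≤ D) (hg : Reg w D g G) {z z' : k}
    (h : ∀ v, Cls w ![z, 1] (ev G v) → Cls w ![z, 1] v)
    (h' : ∀ v, Cls w ![z', 1] (ev G v) → Cls w ![z', 1] v) : z = z' := by
  by_contra hz
  have hD1 : 1 ≤ D := by omega
  obtain ⟨c, hc, e⟩ := ram hw hD1 hg (nez1 z) h
  obtain ⟨c', hc', e2⟩ := ram hw hD1 hg (nez1 z') h'
  rw [aeval_lu] at e e2
  have e' := congrArg dh e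
  have e2' := congrArg dh e2
  rw [dh_sub, dh_mul, dh_mul, dh_pow, dh_pow, dh_pow, dh_C, dh_C, dh_lu, h1, pow_one, pow_one,
    pow_one] at e' e2'
  have n : dh (G 1) ≠ 0 := (hg.bnd.isHom 1).dh_ne_zero (hw.pos 1) (top_comp_ne hw hD1 hg 1)
  have := Polynomial.flt_catalan (k := k) (p := D) (q := D) (r := w 0) (by omega) (by omega)
    (by omega) (by
      obtain ⟨b, hb⟩ := Nat.exists_eq_add_of_le h0
      obtain ⟨c, hc⟩ := Nat.exists_eq_add_of_le hD
      rw [hb, hc]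
      nlinarith [Nat.zero_le (c * c), Nat.zero_le (b * c), Nat.zero_le (b * c * c)])
    (Nat.cast_ne_zero.2 (by omega)) (Nat.cast_ne_zero.2 (by omega))
    (Nat.cast_ne_zero.2 (by omega)) (Polynomial.X_sub_C_ne_zero z) (Polynomial.X_sub_C_ne_zero z')
    n (coprime_of_no_root fun t a b => hz (by
      simp only [Polynomial.eval_sub, Polynomial.eval_X, Polynomial.eval_C, sub_eq_zero] at a b
      rw [← a, ← b]))
    (u := c) (v := -c') (w := z - z') hc (neg_ne_zero.2 hc') (sub_ne_zero.2 hz) (by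
      rw [map_neg, map_sub]
      linear_combination e2' - e')
  simp at this

theorem mono_eval (a : Fin 2 →₀ ℕ) (c : k) (u : Pt k) :
    eval u (monomial a c : A2 k) = c * u 0 ^ a 0 * u 1 ^ a 1 := by
  simp [E2_mono]

theorem axis0 [IsAlgClosed k] (hw : Pos w) (hD : 1 ≤ D) (hg : Reg w D g G)
    (h : ∀ v, Cls w ![0, 1] (ev G v) → Cls w ![0, 1] v) : ∃ α : k, G 0 = C α * X 0 ^ D := by
  have key : ∀ v : Pt k, v ≠ 0 → (Cls w ![0, 1] v ↔ v 0 = 0) := fun v hv => by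
    rw [← eval_lu_eq_zero hw ne01 hv, FL_eval]
    simp [(hw.pos 1).ne']
  have hz : ∀ v : Pt k, v ≠ 0 → eval v (G 0) = 0 → v 0 = 0 := fun v hv e =>
    (key v hv).1 (h v ((key _ (BM_ev_ne hg hv)).2 e))
  obtain ⟨a, c, hc, e⟩ := (hg.bnd.isHom 0).eq_monomial (hw.pos 1) (top_comp_ne hw hD hg 0)
    fun z e => by simpa using hz _ (nez1 z) e
  have a1 : a 1 = 0 := by
    by_contra q
    simpa using hz _ ne10 (by rw [e, mono_eval]; simp [q])
  have a0 : a 0 = D := by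
    have := hg.bnd.isHom 0 a (by rw [e, mem_support_iff, coeff_monomial, if_pos rfl]; exact hc)
    rw [wdeg, a1, mul_zero, add_zero, mul_comm] at this
    exact Nat.eq_of_mul_eq_mul_right (hw.pos 0) this
  exact ⟨c, by rw [e, E2_mono, a0, a1, pow_zero, mul_one]⟩

theorem axis1 [IsAlgClosed k] (hw : Pos w) (hD : 1 ≤ D) (hg : Reg w D g G)
    (h : ∀ v, Cls w ![1, 0] (ev G v) → Cls w ![1, 0] v) : ∃ β : k, G 1 = C β * X 1 ^ D := by
  have key : ∀ v : Pt k, v ≠ 0 → (Cls w ![1, 0] v ↔ v 1 = 0) := fun v hv => by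
    rw [← eval_lu_eq_zero hw ne10 hv, FL_eval]
    simp [(hw.pos 0).ne']
  have hz : ∀ v : Pt k, v ≠ 0 → eval v (G 1) = 0 → v 1 = 0 := fun v hv e =>
    (key v hv).1 (h v ((key _ (BM_ev_ne hg hv)).2 e))
  obtain ⟨a, c, hc, e⟩ := (hg.bnd.isHom 1).eq_monomial (hw.pos 1) (top_comp_ne hw hD hg 1)
    fun z e => by simpa using hz _ (nez1 z) e
  have a0 : a 0 = 0 := by
    by_contra q
    simpa using hz _ ne01 (by rw [e, mono_eval]; simp [q])
  have a1 : a 1 = D := by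
    have := hg.bnd.isHom 1 a (by rw [e, mem_support_iff, coeff_monomial, if_pos rfl]; exact hc)
    rw [wdeg, a0, mul_zero, zero_add, mul_comm] at this
    exact Nat.eq_of_mul_eq_mul_right (hw.pos 1) this
  exact ⟨c, by rw [e, E2_mono, a0, a1, pow_zero, mul_one]⟩

end Pool.Agent.Work.MP_0a826e_ag.W
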