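import Pool.Agent.Work.MP_0a826e_ag.W.A

/-!
Weighted endgame, second part: the Newton polygon lemma for arbitrary starting weights.
-/

namespace Pool.Agent.Work.MP_0a826e_ag.W

open MvPolynomial Pool.Agent.Work.MP_0a826e_ag.R

variable {k : Type} [Field k] {v : Fin 2 → ℕ} {D : ℕ} {g G : Fin 2 → A2 k} {P : A2 k}

theorem exists_weights_w (hv : Pos v) (D : ℕ) (s t : Finset (Fin 2 →₀ ℕ)) (a : Fin 2 →₀ ℕ)
    (hs : ∀ a' ∈ s, (a' 0 = D ∧ a' 1 = 0) ∨ wdeg v a' < D * v 0)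
    (ht : ∀ a' ∈ t, a' = a ∨ wdeg v a' < wdeg v a) :
    ((∀ a' ∈ s, a' 1 = 0) ∧ ∀ a' ∈ t, a' 1 ≤ a 1) ∨
      ∃ w : Fin 2 → ℕ, Pos w ∧ w 0 * v 1 < v 0 * w 1 ∧ (∀ a' ∈ s, wdeg w a' ≤ D * w 0) ∧
        (∀ a' ∈ t, wdeg w a' ≤ wdeg w a) ∧
        ((∃ a' ∈ s, a' 0 < D ∧ wdeg w a' = D * w 0) ∨
          ∃ a' ∈ t, a' 0 < a 0 ∧ wdeg w a' = wdeg w a) := by
  classical
  by_cases h0 : (∀ a' ∈ s, a' 1 = 0) ∧ ∀ a' ∈ t, a' 1 ≤ a 1
  · exact .inl h0
  right
  have v0 := hv.pos 0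
  have v1 := hv.pos 1
  have v0' : (0 : ℚ) < v 0 := by exact_mod_cast v0
  have v1' : (0 : ℚ) < v 1 := by exact_mod_cast v1
  have hs0 : ∀ a' : Fin 2 →₀ ℕ, wdeg v a' < D * v 0 → a' 0 < D := fun a' e => by
    by_contra q
    have := Nat.mul_le_mul_left (v 0) (not_lt.1 q)
    unfold wdeg at e
    nlinarith [Nat.zero_le (v 1 * a' 1)]
  let f : (Fin 2 →₀ ℕ) → ℚ := fun a' => (a' 1 : ℚ) / ((D : ℚ) - a' 0)
  let f' : (Fin 2 →₀ ℕ) → ℚ := fun a' => ((a' 1 : ℚ) - a 1) / ((a 0 : ℚ) - a' 0)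
  let U : Finset ℚ :=
    (s.filter fun a' => a' 0 < D).image f ∪ (t.filter fun a' => a' 0 < a 0).image f'
  have m1 : ∀ a' ∈ s, a' 0 < D → f a' ∈ U := fun a' h h' =>
    Finset.mem_union_left _ (Finset.mem_image_of_mem _ (Finset.mem_filter.2 ⟨h, h'⟩))
  have m2 : ∀ a' ∈ t, a' 0 < a 0 → f' a' ∈ U := fun a' h h' =>
    Finset.mem_union_right _ (Finset.mem_image_of_mem _ (Finset.mem_filter.2 ⟨h, h'⟩))
  have d1 : ∀ {x y : ℕ}, x < y → (0 : ℚ) < (y : ℚ) - x := fun h => sub_pos.2 (by exact_mod_cast h)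
  have hex : ∃ x ∈ U, 0 < x := by
    rw [not_and_or] at h0
    rcases h0 with h0 | h0
    · push Not at h0
      obtain ⟨a', h, h'⟩ := h0
      have e : a' 0 < D := hs0 a' ((hs a' h).resolve_left fun q => h' q.2)
      exact ⟨_, m1 a' h e, div_pos (by exact_mod_cast Nat.pos_of_ne_zero h') (d1 e)⟩
    · push Not at h0
      obtain ⟨a', h, h'⟩ := h0
      have e : a' 0 < a 0 := by
        rcases ht a' h with rfl | e
        · omega
        · by_contra q
          have := Nat.mul_le_mul_left (v 0) (not_lt.1 q)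
          have := Nat.mul_le_mul_left (v 1) h'.le
          unfold wdeg at e
          omega
      exact ⟨_, m2 a' h e, div_pos (d1 h') (d1 e)⟩
  obtain ⟨x, hx, hx0⟩ := hex
  obtain ⟨ρ, hρ, hmax⟩ := Finset.exists_max_image U id ⟨x, hx⟩
  have ρ0 : 0 < ρ := hx0.trans_le (hmax x hx)
  have hcase : (∃ a' ∈ s, a' 0 < D ∧ f a' = ρ) ∨ ∃ a' ∈ t, a' 0 < a 0 ∧ f' a' = ρ := by
    rcases Finset.mem_union.1 hρ with h | h
    · obtain ⟨a', h, e⟩ := Finset.mem_image.1 h
      exact .inl ⟨a', (Finset.mem_filter.1 h).1, (Finset.mem_filter.1 h).2, e⟩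
    · obtain ⟨a', h, e⟩ := Finset.mem_image.1 h
      exact .inr ⟨a', (Finset.mem_filter.1 h).1, (Finset.mem_filter.1 h).2, e⟩
  have ρ1 : ρ * v 1 < v 0 := by
    rcases hcase with ⟨a', h, h', rfl⟩ | ⟨a', h, h', rfl⟩
    · rw [div_mul_eq_mul_div, div_lt_iff₀ (d1 h')]
      have : v 0 * a' 0 + v 1 * a' 1 < D * v 0 := (hs a' h).resolve_left fun q => by omega
      have : (v 0 : ℚ) * a' 0 + v 1 * a' 1 < D * v 0 := by exact_mod_cast this
      linarith only [this]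
    · rw [div_mul_eq_mul_div, div_lt_iff₀ (d1 h')]
      have : v 0 * a' 0 + v 1 * a' 1 < v 0 * a 0 + v 1 * a 1 := by
        rcases ht a' h with rfl | e
        · omega
        · exact e
      have : (v 0 : ℚ) * a' 0 + v 1 * a' 1 < v 0 * a 0 + v 1 * a 1 := by exact_mod_cast this
      linarith only [this]
  obtain ⟨p, q, hq, hc, hpq⟩ : ∃ p q : ℕ, 0 < q ∧ Nat.Coprime p q ∧ (p : ℚ) = ρ * q :=
    ⟨ρ.num.natAbs, ρ.den, ρ.den_pos, ρ.reduced, by
      rw [Rat.mul_den_eq_num, Nat.cast_natAbs, abs_of_pos (Rat.num_pos.2 ρ0)]⟩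
  have hq' : (0 : ℚ) < q := by exact_mod_cast hq
  have hp : 0 < p := by
    have : (0 : ℚ) < p := hpq ▸ mul_pos ρ0 hq'
    exact_mod_cast this
  have hlt : p * v 1 < v 0 * q := by
    have : (p : ℚ) * v 1 < v 0 * q := by
      rw [hpq]
      nlinarith only [ρ1, hq']
    exact_mod_cast this
  refine ⟨![p, q], ⟨fun i => by fin_cases i <;> simpa, hc⟩, hlt, fun a' h => ?_, fun a' h => ?_,
    hcase.imp ?_ ?_⟩
  · show p * a' 0 + q * a' 1 ≤ D * p
    rcases hs a' h with ⟨e, e'⟩ | e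
    · rw [e, e', mul_zero, add_zero, mul_comm]
    · have e1 : a' 0 < D := hs0 a' e
      have e2 : (a' 1 : ℚ) / ((D : ℚ) - a' 0) ≤ ρ := hmax _ (m1 a' h e1)
      rw [div_le_iff₀ (d1 e1)] at e2
      have : (p : ℚ) * a' 0 + q * a' 1 ≤ D * p := by
        rw [hpq]
        nlinarith only [e2, hq']
      exact_mod_cast this
  · show p * a' 0 + q * a' 1 ≤ p * a 0 + q * a 1
    rcases ht a' h with rfl | e
    · exact le_rfl
    · have : (p : ℚ) * a' 0 + q * a' 1 ≤ p * a 0 + q * a 1 := by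
        rw [hpq]
        by_cases e1 : a' 0 < a 0
        · have e2 : ((a' 1 : ℚ) - a 1) / ((a 0 : ℚ) - a' 0) ≤ ρ := hmax _ (m2 a' h e1)
          rw [div_le_iff₀ (d1 e1)] at e2
          nlinarith only [e2, hq']
        · have e2 : (a 0 : ℚ) ≤ a' 0 := by exact_mod_cast not_lt.1 e1
          have e3 : (v 0 : ℚ) * a' 0 + v 1 * a' 1 < v 0 * a 0 + v 1 * a 1 := by
            exact_mod_cast (show v 0 * a' 0 + v 1 * a' 1 < v 0 * a 0 + v 1 * a 1 from e)
          have e4 : ρ * ((a' 0 : ℚ) - a 0) ≤ a 1 - a' 1 := by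
            refine le_of_mul_le_mul_left ?_ v1'
            nlinarith only [e2, e3, ρ1]
          nlinarith only [e4, hq']
      exact_mod_cast this
  · rintro ⟨a', h, h', e⟩
    refine ⟨a', h, h', ?_⟩
    show p * a' 0 + q * a' 1 = D * p
    have e2 : (a' 1 : ℚ) = ρ * ((D : ℚ) - a' 0) := (div_eq_iff (d1 h').ne').1 e
    have : (p : ℚ) * a' 0 + q * a' 1 = D * p := by rw [hpq, e2]; ring
    exact_mod_cast this
  · rintro ⟨a', h, h', e⟩
    refine ⟨a', h, h', ?_⟩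
    show p * a' 0 + q * a' 1 = p * a 0 + q * a 1
    have e2 : (a' 1 : ℚ) - a 1 = ρ * ((a 0 : ℚ) - a' 0) := (div_eq_iff (d1 h').ne').1 e
    have : (p : ℚ) * a' 0 + q * a' 1 = p * a 0 + q * a 1 := by
      rw [hpq, sub_eq_iff_eq_add.1 e2]; ring
    exact_mod_cast this

theorem coeff_axis [IsAlgClosed k] (hv : Pos v) (hD : 1 ≤ D) (hg : Reg v D g G) {α : k}
    (hG : G 0 = C α * X 0 ^ D) : α ≠ 0 ∧ coeff (Finsupp.single 0 D) (g 0) = α := by
  refine ⟨fun e => top_comp_ne hv hD hg 0 (by rw [hG, e, C_0, zero_mul]), ?_⟩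
  have e := congrArg (coeff (Finsupp.single 0 D)) ((hg.bnd.eq 0).symm.trans hG)
  rwa [coeff_cmp, if_pos (Pr_wdeg _ _ _), C_mul_X_pow_eq_monomial, coeff_monomial,
    if_pos rfl] at e

/-- regularity for the new weights -/
theorem reg_weights_w [IsAlgClosed k] (hv : Pos v) (hD : 2 ≤ D) (hg : Reg v D g G) {α : k}
    (hG : G 0 = C α * X 0 ^ D) {w : Fin 2 → ℕ} (hw : Pos w) (hlt : w 0 * v 1 < v 0 * w 1)
    (hs : ∀ a' ∈ (g 0).support, wdeg w a' ≤ D * w 0) :
    ∃ (G' : Fin 2 → A2 k) (β : k), β ≠ 0 ∧ Reg w D g G' ∧ G' 1 = C β * X 1 ^ D ∧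
      (dh (G' 0)).natDegree = D ∧ (w 1 ≠ 1 → (dh (G' 0)).coeff (D - 1) = 0) := by
  have w0 := hw.pos 0
  have w1 := hw.pos 1
  have v0 := hv.pos 0
  have v1 := hv.pos 1
  have D0 : D ≠ 0 := by omega
  have hle : ∀ a ∈ (g 1).support, v 0 * a 0 + v 1 * a 1 ≤ D * v 1 := fun a ha =>
    (wdeg_le_wt (w := v) ha).trans (hg.bnd.le 1)
  have hG1 : IsHom v (D * v 1) (G 1) := hg.bnd.isHom 1
  obtain ⟨hα, cα0⟩ := coeff_axis hv (by omega) hg hG
  have hb : Bnd w D g fun i => cmp w (D * w i) (g i) := ⟨fun i => wt_le_iff.2 fun a ha => by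
    fin_cases i
    · exact hs a ha
    · have := hle a ha
      show w 0 * a 0 + w 1 * a 1 ≤ D * w 1
      refine Nat.le_of_mul_le_mul_left ?_ v1
      nlinarith only [Nat.mul_le_mul_right (a 0) hlt.le, Nat.mul_le_mul_left (w 1) this],
    fun _ => rfl⟩
  have cα : coeff (Finsupp.single 0 D) (cmp w (D * w 0) (g 0)) = α := by
    rw [coeff_cmp, if_pos (Pr_wdeg _ _ _), cα0]
  have hβ : coeff (Finsupp.single 1 D) (g 1) ≠ 0 := fun e => by
    have e1 := hG1.coeff_dh v1 (a := Finsupp.single 1 D) (Pr_wdeg _ _ _)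
    rw [hg.bnd.eq 1, coeff_cmp, if_pos (Pr_wdeg _ _ _), e, ← hg.bnd.eq 1] at e1
    have e2 : eval ![0, 1] (G 1) = 0 := by
      rw [← eval_dh, ← Polynomial.coeff_zero_eq_eval_zero]
      simpa using e1
    exact ne01 (hg.nz ![0, 1] (funext fun i => by
      fin_cases i
      · simp [ev, hG, D0]
      · exact e2))
  have e1 : cmp w (D * w 1) (g 1) = C (coeff (Finsupp.single 1 D) (g 1)) * X 1 ^ D := by
    ext a
    rw [C_mul_X_pow_eq_monomial, coeff_monomial, coeff_cmp]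
    by_cases e : Finsupp.single 1 D = a
    · subst e
      rw [if_pos (Pr_wdeg _ _ _), if_pos rfl]
    · rw [if_neg e]
      split_ifs with h
      · by_contra hne
        have h1 := hle a (mem_support_iff.2 hne)
        have h2 : w 0 * a 0 + w 1 * a 1 = D * w 1 := h
        have h3 : a 0 = 0 := by
          by_contra h4
          have h5 := Nat.mul_lt_mul_of_pos_right hlt (Nat.pos_of_ne_zero h4)
          have h6 := congrArg (v 1 * ·) h2
          nlinarith only [h5, h6, Nat.mul_le_mul_left (w 1) h1]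
        rw [h3, mul_zero, zero_add, mul_comm] at h2
        exact e (E2_ext (by simp [h3]) (by simp [Nat.eq_of_mul_eq_mul_right w1 h2]))
      · rfl
  have hsup : ∀ i, (dh (cmp w (D * w 0) (g 0))).coeff i ≠ 0 →
      ∃ j, w 0 * i + w 1 * j = D * w 0 := fun i hi => by
    obtain ⟨a, ha, rfl⟩ := exists_of_coeff_dh hi
    exact ⟨a 1, isHom_cmp _ _ _ a ha⟩
  refine ⟨_, _, hβ, ⟨hb, fun u hu => ?_⟩, e1, ?_, fun hw1 => ?_⟩
  · have u1 : u 1 = 0 := by
      have : eval u (cmp w (D * w 1) (g 1)) = 0 := congrFun hu 1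
      rw [e1] at this
      simpa [hβ, D0] using this
    have u0 : u 0 = 0 := by
      have : eval u (cmp w (D * w 0) (g 0)) = 0 := congrFun hu 0
      rw [E2_eval_axis w0 (isHom_cmp _ _ _) u1, cα] at this
      simpa [hα, D0] using this
    funext i
    fin_cases i
    exacts [u0, u1]
  · refine Polynomial.natDegree_eq_of_le_of_coeff_ne_zero
      (Polynomial.natDegree_le_iff_coeff_eq_zero.2 fun i hi => ?_) ?_
    · by_contra h
      obtain ⟨j, hj⟩ := hsup i h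
      linarith only [hj, hi, w0, Nat.mul_lt_mul_of_pos_left hi w0, Nat.zero_le (w 1 * j)]
    · have := (isHom_cmp w (D * w 0) (g 0)).coeff_dh w1 (a := Finsupp.single 0 D)
        (Pr_wdeg _ _ _)
      rw [cα, Finsupp.single_eq_same] at this
      exact this ▸ hα
  · by_contra h
    obtain ⟨j, hj⟩ := hsup _ h
    obtain ⟨E, rfl⟩ : ∃ E, D = E + 1 := ⟨D - 1, by omega⟩
    rw [Nat.add_sub_cancel] at hj
    exact hw1 (Nat.Coprime.eq_one_of_dvd hw.cop.symm ⟨j, by linarith only [hj]⟩)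

theorem top_mono {a : Fin 2 →₀ ℕ} {c : k} (hc : c ≠ 0) (ht : top v P = monomial a c) :
    wdeg v a = wt v P ∧ coeff a P = c ∧ ∀ a' ∈ P.support, a' = a ∨ wdeg v a' < wdeg v a := by
  have hc1 : ∀ a', coeff a' (monomial a c) =
      if wdeg v a' = wt v P then coeff a' P else 0 := fun a' => by
    rw [← ht, top_eq_cmp, coeff_cmp]
  have ha : wdeg v a = wt v P ∧ coeff a P = c := by
    have := hc1 a
    rw [coeff_monomial, if_pos rfl] at this
    split_ifs at this with h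
    · exact ⟨h, this.symm⟩
    · exact absurd this hc
  refine ⟨ha.1, ha.2, fun a' ha' => ?_⟩
  rcases (wdeg_le_wt (w := v) ha').eq_or_lt with h | h
  · left
    have := hc1 a'
    rw [if_pos h, coeff_monomial] at this
    split_ifs at this with h'
    · exact h'.symm
    · exact absurd this.symm (mem_support_iff.1 ha')
  · exact .inr (ha.1 ▸ h)

/-- The Newton polygon lemma for arbitrary starting weights. -/
theorem e2w [IsAlgClosed k] [CharZero k] (ι : k →+* ℂ) (hM : MAL k) (hv : Pos v) (hD : 2 ≤ D)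
    (hg : Reg v D g G) {α : k} (hG : G 0 = C α * X 0 ^ D) (hB : Bad g P)
    {a : Fin 2 →₀ ℕ} {c : k} (hc : c ≠ 0) (ht : top v P = monomial a c) (a0 : a 0 ≠ 0)
    (H : ∀ w : Fin 2 → ℕ, Pos w → w 1 = 1 → w 0 * v 1 < v 0 → ∀ G', ¬ Reg w D g G') :
    (∃ p : Polynomial k, p.natDegree = D ∧ g 0 = Polynomial.aeval (X 0 : A2 k) p) ∧
      ∀ a' ∈ P.support, a' 1 ≤ a 1 := by
  have v0 := hv.pos 0
  have hs : ∀ a' ∈ (g 0).support, (a' 0 = D ∧ a' 1 = 0) ∨ wdeg v a' < D * v 0 := fun a' ha => by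
    rcases ((wdeg_le_wt (w := v) ha).trans (hg.bnd.le 0)).eq_or_lt with h3 | h3
    · left
      have e := congrArg (coeff a') ((hg.bnd.eq 0).symm.trans hG)
      rw [coeff_cmp, if_pos h3, C_mul_X_pow_eq_monomial, coeff_monomial] at e
      split_ifs at e with h4
      · subst h4
        simp
      · exact absurd e (mem_support_iff.1 ha)
    · exact .inr h3
  obtain ⟨-, ha, ht'⟩ := top_mono hc ht
  rcases exists_weights_w hv D _ _ a hs ht' with ⟨h1, h2⟩ | ⟨w, hw, hlt, h1, h2, h3⟩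
  · refine ⟨?_, h2⟩
    obtain ⟨p, hp⟩ := exists_aeval_X0 h1
    have e : dh (g 0) = p := by
      rw [hp, dh, ← Polynomial.aeval_algHom_apply, aeval_X]
      simp
    obtain ⟨hα, cα⟩ := coeff_axis hv (by omega) hg hG
    have hh : IsHom ![0, 1] 0 (g 0) := fun a' ha' => by simp [wdeg, h1 a' ha']
    refine ⟨p, Polynomial.natDegree_eq_of_le_of_coeff_ne_zero
      (Polynomial.natDegree_le_iff_coeff_eq_zero.2 fun i hi => ?_) ?_, hp⟩
    · by_contra h
      obtain ⟨a', ha', rfl⟩ := exists_of_coeff_dh (e ▸ h)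
      rcases hs a' ha' with q | q
      · omega
      · unfold wdeg at q
        nlinarith only [q, Nat.mul_lt_mul_of_pos_left hi v0, Nat.zero_le (v 1 * a' 1)]
    · have := hh.coeff_dh (by simp) (a := Finsupp.single 0 D) (by simp [wdeg])
      rw [cα, Finsupp.single_eq_same, e] at this
      exact this ▸ hα
  exfalso
  obtain ⟨G', β, hβ, hr, e1, e2, e3⟩ := reg_weights_w hv hD hg hG hw hlt h1
  have e3 := e3 fun q => H w hw q (by rwa [q, mul_one] at hlt) G' hr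
  have aP : a ∈ P.support := mem_support_iff.2 (ha ▸ hc)
  have hwt : wt w P = wdeg w a := le_antisymm (wt_le_iff.2 h2) (wdeg_le_wt aP)
  have ctop : ∀ a', wdeg w a' = wdeg w a → coeff a' (top w P) = coeff a' P := fun a' h => by
    rw [top_eq_cmp, coeff_cmp, hwt, if_pos h]
  have root : ∀ z : k, eval ![z, 1] (top w P) = 0 →
      z = 0 ∧ ∀ i, i < D → (dh (G' 0)).coeff i = 0 :=
    fun z hz => tri hw.pos hD hr.bnd hβ e1 e2 e3 (kt ι hM hw hD hr hB (nez1 z) hz)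
  rcases h3 with ⟨a', h, h', e⟩ | ⟨a', h, h', e⟩
  · have c1 := (isHom_top w P).coeff_dh (hw.pos 1) hwt.symm
    rw [ctop a rfl, ha] at c1
    have dg : (dh (top w P)).degree ≠ 0 := fun e => by
      have := Polynomial.le_natDegree_of_ne_zero (c1 ▸ hc)
      rw [Polynomial.natDegree_eq_zero_iff_degree_le_zero.2 e.le] at this
      omega
    obtain ⟨z, hz⟩ := IsAlgClosed.exists_root _ dg
    have c2 := (root z ((eval_dh _ _).symm.trans hz)).2 _ h'
    rw [(hr.bnd.isHom 0).coeff_dh (hw.pos 1) e, hr.bnd.eq 0, coeff_cmp, if_pos e] at c2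
    exact mem_support_iff.1 h c2
  · obtain ⟨b, c', -, eb⟩ := (isHom_top w P).eq_monomial (hw.pos 1) (top_ne_zero hB.irr.ne_zero)
      fun z hz => (root z hz).1
    have key : ∀ x ∈ P.support, wdeg w x = wdeg w a → b = x := fun x hx ex => by
      by_contra hne
      have := ctop x ex
      rw [eb, coeff_monomial, if_neg hne] at this
      exact mem_support_iff.1 hx this.symm
    rw [← key a aP rfl, ← key a' h e] at h'
    exact lt_irrefl _ h'

/-- exchange of the two exponents -/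
noncomputable def tau (b : Fin 2 →₀ ℕ) : Fin 2 →₀ ℕ :=
  Finsupp.single 0 (b 1) + Finsupp.single 1 (b 0)

theorem tau0 (b : Fin 2 →₀ ℕ) : tau b 0 = b 1 := by simp [tau]

theorem tau1 (b : Fin 2 →₀ ℕ) : tau b 1 = b 0 := by simp [tau]

theorem coeff_tau (φ : A2 k) (a : Fin 2 →₀ ℕ) : coeff a (aeval (swp k) φ) = coeff (tau a) φ :=
  coeff_swp φ (tau a) a (tau1 a).symm (tau0 a).symm

theorem wdeg_tau (v : Fin 2 → ℕ) (a : Fin 2 →₀ ℕ) : wdeg ![v 1, v 0] a = wdeg v (tau a) := by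
  simp [wdeg, tau0, tau1, add_comm]

theorem cmp_swp (v : Fin 2 → ℕ) (n : ℕ) (φ : A2 k) :
    cmp ![v 1, v 0] n (aeval (swp k) φ) = aeval (swp k) (cmp v n φ) := by
  ext a
  rw [coeff_cmp, coeff_tau, coeff_tau, coeff_cmp, wdeg_tau]

theorem wt_swp_le (v : Fin 2 → ℕ) (φ : A2 k) : wt ![v 1, v 0] (aeval (swp k) φ) ≤ wt v φ :=
  wt_le_iff.2 fun a ha => by
    rw [wdeg_tau]
    exact wdeg_le_wt (by rwa [mem_support_iff, coeff_tau, ← mem_support_iff] at ha)

theorem swp_swp (φ : A2 k) : aeval (swp k) (aeval (swp k) φ) = φ := by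
  rw [← aeval_comp, comp_swp, aeval_X_left_apply]

theorem top_swp (v : Fin 2 → ℕ) {φ : A2 k} (h : φ ≠ 0) :
    top ![v 1, v 0] (aeval (swp k) φ) = aeval (swp k) (top v φ) := by
  have e := cmp_swp v (wt v φ) φ
  rw [← top_eq_cmp] at e
  rw [top_eq_cmp, le_antisymm (wt_swp_le v φ) (le_wt_of_cmp_ne (by
    rw [e]
    intro q
    exact top_ne_zero (w := v) h (by rw [← swp_swp (top v φ), q, map_zero]))), e]

theorem conj0 (F : Fin 2 → A2 k) : comp (swp k) (comp F (swp k)) 0 = aeval (swp k) (F 1) := by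
  simp [comp, swp]

theorem conj1 (F : Fin 2 → A2 k) : comp (swp k) (comp F (swp k)) 1 = aeval (swp k) (F 0) := by
  simp [comp, swp]

theorem pos_swp (hv : Pos v) : Pos ![v 1, v 0] :=
  ⟨fun i => by
    fin_cases i
    exacts [hv.pos 1, hv.pos 0], hv.cop.symm⟩

theorem reg_swp_w (hg : Reg v D g G) :
    Reg ![v 1, v 0] D (comp (swp k) (comp g (swp k))) (comp (swp k) (comp G (swp k))) := by
  refine ⟨⟨Fin.forall_fin_two.2 ⟨?_, ?_⟩, Fin.forall_fin_two.2 ⟨?_, ?_⟩⟩, fun u hu => ?_⟩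
  · rw [conj0]
    exact (wt_swp_le v _).trans (hg.bnd.le 1)
  · rw [conj1]
    exact (wt_swp_le v _).trans (hg.bnd.le 0)
  · rw [conj0, conj0, cmp_swp, hg.bnd.eq 1]
    rfl
  · rw [conj1, conj1, cmp_swp, hg.bnd.eq 0]
    rfl
  · rw [ev_comp, ev_comp] at hu
    exact reg_swp.nz _ (hg.nz _ (reg_swp.nz _ hu))

/-- `e2w` after swapping the coordinates, when the second weight is the smaller one -/
theorem e2w' [IsAlgClosed k] [CharZero k] (ι : k →+* ℂ) (hM : MAL k) (hv : Pos v) (hD : 2 ≤ D)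
    (hlt : v 1 ≤ v 0) (hg : Reg v D g G) {β : k} (hG : G 1 = C β * X 1 ^ D) (hB : Bad g P)
    {a : Fin 2 →₀ ℕ} {c : k} (hc : c ≠ 0) (ht : top v P = monomial a c) (a1 : a 1 ≠ 0) :
    (∃ q : Polynomial k, q.natDegree = D ∧ g 1 = Polynomial.aeval (X 1 : A2 k) q) ∧
      ∀ a' ∈ P.support, a' 0 ≤ a 0 := by
  have s0 : aeval (swp k) (X 0 : A2 k) = X 1 := by simp [swp]
  have s1 : aeval (swp k) (X 1 : A2 k) = X 0 := by simp [swp]
  have ht' : top ![v 1, v 0] (aeval (swp k) P) = monomial (tau a) c := by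
    rw [top_swp v hB.irr.ne_zero, ht, E2_mono, E2_mono, tau0, tau1, map_mul, map_mul, map_pow,
      map_pow, s0, s1, aeval_C, algebraMap_eq]
    ring
  have hG' : comp (swp k) (comp G (swp k)) 0 = C β * X 0 ^ D := by
    rw [conj0, hG, map_mul, map_pow, s1, aeval_C, algebraMap_eq]
  obtain ⟨⟨p, hd, hp⟩, h⟩ := e2w ι hM (pos_swp hv) hD (reg_swp_w hg) hG'
    (hB.conj comp_swp comp_swp) hc ht' (by rwa [tau0]) fun w hw _ q => by
      have q' : w 0 * v 0 < v 1 := q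
      have := Nat.le_mul_of_pos_left (v 0) (hw.pos 0)
      omega
  refine ⟨⟨p, hd, ?_⟩, fun a' ha' => ?_⟩
  · have e := congrArg (aeval (swp k)) hp
    rwa [conj0, swp_swp, ← Polynomial.aeval_algHom_apply, s0] at e
  · have := h (tau a') (mem_support_iff.2 (by
      rw [coeff_swp P a' (tau a') (tau0 a') (tau1 a')]
      exact mem_support_iff.1 ha'))
    rwa [tau1, tau1] at this

end Pool.Agent.Work.MP_0a826e_ag.W
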