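import Pool.Agent.Work.MP_0a826e_ag.W.B

/-!
Weighted endgame, third part: no counterexample for any weights, and the transfer to the complex
affine plane.
-/

namespace Pool.Agent.Work.MP_0a826e_ag.W

open MvPolynomial Pool.Agent.Work.MP_0a826e_ag.R

section Gen

variable {k : Type} [Field k] {w : Fin 2 → ℕ} {d : ℕ} {f F : Fin 2 → A2 k} {P : A2 k}

/-- no counterexample for the weights `w` -/
def NB (k : Type) [Field k] (w : Fin 2 → ℕ) : Prop :=
  ∀ (d : ℕ) (f F : Fin 2 → A2 k) (P : A2 k), 2 ≤ d → Reg w d f F → ¬ Bad f P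

theorem wt_pos (hw : Pos w) (hB : Bad f P) : 1 ≤ wt w P := by
  by_contra hlt
  have h1 := eq_C_of_wt_eq_zero hw.pos (show wt w P = 0 by omega)
  refine hB.irr.not_isUnit (isUnit_iff_C.2 ⟨coeff 0 P, fun h => hB.irr.ne_zero ?_, h1⟩)
  rw [h1, h, map_zero]

theorem eight_le (hd : 2 ≤ d) {N : ℕ} (hN : 3 ≤ N) : 8 ≤ d ^ N :=
  (show 2 ^ 3 ≤ 2 ^ N from Nat.pow_le_pow_right (by omega) hN).trans (Nat.pow_le_pow_left hd N)

theorem mono_case [IsAlgClosed k] [CharZero k] (ι : k →+* ℂ) (hM : MAL k) (hw : Pos w)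
    (hlt : w 1 ≤ w 0) (hd : 2 ≤ d) (hf : Reg w d f F) (hB : Bad f P)
    (hz : ∀ z : k, eval ![z, 1] (top w P) = 0 → z = 0)
    (H : ∀ w' : Fin 2 → ℕ, Pos w' → w' 1 = 1 → w' 0 * w 1 < w 0 → NB k w') : False := by
  have hP0 := top_ne_zero (w := w) hB.irr.ne_zero
  obtain ⟨a, c, hc, ht⟩ := (isHom_top w P).eq_monomial (hw.pos 1) hP0 hz
  obtain ⟨N, hN, hinv⟩ := tot_inv hw (by omega) hf
    (fun u hu e => kt ι hM hw hd hf hB hu e) (isHom_top w P) hP0
  have hD := eight_le hd hN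
  have hg := hf.of_iter (by omega) N
  have hB' := hB.of_iter (n := N) (by omega)
  generalize iter f N = g at hg hB'
  generalize iter F N = G at hg hinv
  generalize d ^ N = D at hD hg
  obtain ⟨ha, hca, -⟩ := top_mono hc ht
  have haP : a ∈ P.support := mem_support_iff.2 (hca ▸ hc)
  have hx : a 0 ≠ 0 → (∃ p : Polynomial k, p.natDegree = D ∧
      g 0 = Polynomial.aeval (X 0 : A2 k) p) ∧ ∀ a' ∈ P.support, a' 1 ≤ a 1 := fun a0 => by
    obtain ⟨α, hα⟩ := axis0 hw (by omega) hg fun v =>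
      hinv _ v ne01 (by rw [ht, mono_eval]; simp [a0])
    exact e2w ι hM hw (by omega) hg hα hB' hc ht a0 fun w' p1 p2 p3 G' hr =>
      H w' p1 p2 p3 D g G' P (by omega) hr hB'
  have hy : a 1 ≠ 0 → (∃ q : Polynomial k, q.natDegree = D ∧
      g 1 = Polynomial.aeval (X 1 : A2 k) q) ∧ ∀ a' ∈ P.support, a' 0 ≤ a 0 := fun a1 => by
    obtain ⟨β, hβ⟩ := axis1 hw (by omega) hg fun v =>
      hinv _ v ne10 (by rw [ht, mono_eval]; simp [a1])
    exact e2w' ι hM hw (by omega) hlt hg hβ hB' hc ht a1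
  by_cases a0 : a 0 = 0
  · by_cases a1 : a 1 = 0
    · have := wt_pos hw hB
      rw [← ha, wdeg, a0, a1] at this
      omega
    · obtain ⟨⟨q, -, hq⟩, h⟩ := hy a1
      exact not_bad_hor q hq (fun a' ha' => by have := h a' ha'; omega) hB'
  · obtain ⟨⟨p, dp, hp⟩, h⟩ := hx a0
    by_cases a1 : a 1 = 0
    · exact not_bad_vert p hp (fun a' ha' => by have := h a' ha'; omega) hB'
    · obtain ⟨⟨q, dq, hq⟩, h'⟩ := hy a1
      have e : g = prodMap p q := funext fun i => by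
        fin_cases i
        exacts [hp, hq]
      exact not_bad_prod ι hM (by omega) dp dq haP (fun a' ha' => ⟨h' a' ha', h a' ha'⟩) (e ▸ hB')

/-- the shear `(x + z y ^ m, y)` -/
noncomputable def sh (m : ℕ) (z : k) : Fin 2 → A2 k := ![X 0 + C z * X 1 ^ m, X 1]

theorem comp_sh (m : ℕ) (z z' : k) (h : z + z' = 0) : comp (sh m z) (sh m z') = X := by
  funext i
  fin_cases i
  · have : (C z : A2 k) + C z' = 0 := by rw [← map_add, h, map_zero]
    simp only [comp, sh, Fin.zero_eta, Matrix.cons_val_zero, map_add, map_mul, map_pow, aeval_X,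
      aeval_C, algebraMap_eq, Matrix.cons_val_one]
    linear_combination (X 1 ^ m : A2 k) * this
  · simp [comp, sh]

theorem ev_sh (m : ℕ) (z : k) (u : Pt k) : ev (sh m z) u = ![u 0 + z * u 1 ^ m, u 1] := by
  funext i
  fin_cases i <;> simp [ev, sh]

theorem reg_sh (hw : Pos w) (h1 : w 1 = 1) (z : k) : Reg w 1 (sh (w 0) z) (sh (w 0) z) := by
  refine ⟨bnd_of_isHom (Fin.forall_fin_two.2 ⟨?_, ?_⟩), fun u hu => ?_⟩
  · have := ((isHom_X (k := k) w 1).pow (w 0)).C_mul z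
    rw [h1, mul_one] at this
    rw [one_mul]
    exact (isHom_X w 0).add this
  · rw [one_mul]
    exact isHom_X w 1
  · rw [ev_sh] at hu
    have u1 : u 1 = 0 := congrFun hu 1
    have u0 : u 0 + z * u 1 ^ w 0 = 0 := congrFun hu 0
    rw [u1, zero_pow (hw.pos 0).ne', mul_zero, add_zero] at u0
    funext i
    fin_cases i
    exacts [u0, u1]

theorem nb_step [IsAlgClosed k] [CharZero k] (ι : k →+* ℂ) (hM : MAL k) (hw : Pos w)
    (hlt : w 1 < w 0) (H : ∀ w' : Fin 2 → ℕ, Pos w' → w' 1 = 1 → w' 0 * w 1 < w 0 → NB k w') :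
    NB k w := by
  intro d f F P hd hf hB
  have hP0 := top_ne_zero (w := w) hB.irr.ne_zero
  obtain ⟨N, hN, hinv⟩ := tot_inv hw (by omega) hf
    (fun u hu e => kt ι hM hw hd hf hB hu e) (isHom_top w P) hP0
  have hD := eight_le hd hN
  have hg := hf.of_iter (by omega) N
  have w1 := hw.pos 1
  by_cases h1 : w 1 = 1
  · obtain ⟨z0, hz0⟩ : ∃ z0 : k, ∀ z, eval ![z, 1] (top w P) = 0 → z = z0 := by
      by_cases e : ∃ z0 : k, eval ![z0, 1] (top w P) = 0
      · obtain ⟨z0, e⟩ := e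
        exact ⟨z0, fun z hz => one_generic hw h1 (by omega) hD hg
          (fun v => hinv _ v (nez1 z) hz) fun v => hinv _ v (nez1 z0) e⟩
      · exact ⟨0, fun z hz => absurd ⟨z, hz⟩ e⟩
    refine mono_case ι hM hw hlt.le hd
      (hf.conj (by omega) (reg_sh hw h1 (-z0)) (reg_sh hw h1 z0))
      (hB.conj (comp_sh _ _ _ (neg_add_cancel z0)) (comp_sh _ _ _ (add_neg_cancel z0)))
      (fun z hz => ?_) H
    rw [((reg_sh hw h1 z0).top_aeval hw.pos le_rfl P).2, eval_aeval_ev, ev_sh] at hz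
    exact add_eq_right.1 (hz0 (z + z0) (by simpa using hz))
  · refine mono_case ι hM hw hlt.le hd hf hB (fun z hz => ?_) H
    by_contra hne
    exact no_generic hw (by omega) (by omega) hD hg hne fun v => hinv _ v (nez1 z) hz

theorem nb_le [IsAlgClosed k] [CharZero k] (ι : k →+* ℂ) (hM : MAL k) (n : ℕ) :
    ∀ w : Fin 2 → ℕ, Pos w → w 1 ≤ w 0 → w 0 ≤ n → NB k w := by
  induction n with
  | zero => exact fun w hw _ h => absurd (hw.pos 0) (by omega)
  | succ n ih =>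
    intro w hw h1 h2
    rcases h1.eq_or_lt with e | e
    · have c := hw.cop
      rw [← e, Nat.coprime_self] at c
      obtain rfl : w = ![1, 1] := funext fun i => by
        fin_cases i
        exacts [e.symm.trans c, c]
      exact fun d f F P hd hf => not_bad ι hM hd hf P
    · refine nb_step ι hM hw e fun w' p1 p2 p3 => ih w' p1 ?_ ?_
      · rw [p2]
        exact p1.pos 0
      · have := Nat.le_mul_of_pos_right (w' 0) (hw.pos 1)
        omega

theorem nb_all [IsAlgClosed k] [CharZero k] (ι : k →+* ℂ) (hM : MAL k) (hw : Pos w) : NB k w := by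
  rcases le_total (w 1) (w 0) with h | h
  · exact nb_le ι hM _ w hw h le_rfl
  · exact fun d f F P hd hf hB => nb_le ι hM _ _ (pos_swp hw) h le_rfl d _ _ _ hd (reg_swp_w hf)
      (hB.conj comp_swp comp_swp)

/-- division of the weights by their greatest common divisor -/
theorem exists_pos (hw : ∀ i, 0 < w i) (hf : Reg w d f F) :
    ∃ w' : Fin 2 → ℕ, Pos w' ∧ (∃ e, 1 ≤ e ∧ w = sw e w') ∧ Reg w' d f F := by
  obtain ⟨a, b, hab, h0, h1⟩ := Nat.exists_coprime (w 0) (w 1)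
  have hg : 0 < Nat.gcd (w 0) (w 1) := Nat.gcd_pos_of_pos_left _ (hw 0)
  generalize Nat.gcd (w 0) (w 1) = e at h0 h1 hg
  have hp : Pos ![a, b] := ⟨Fin.forall_fin_two.2
    ⟨Nat.pos_of_ne_zero fun q => (hw 0).ne' (by rw [h0, show a = 0 from q, zero_mul]),
      Nat.pos_of_ne_zero fun q => (hw 1).ne' (by rw [h1, show b = 0 from q, zero_mul])⟩, hab⟩
  obtain rfl : w = sw e ![a, b] := funext fun i => by
    fin_cases i
    exacts [h0.trans (mul_comm _ _), h1.trans (mul_comm _ _)]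
  have r : ∀ i, d * sw e ![a, b] i = e * (d * ![a, b] i) := fun i => mul_left_comm _ _ _
  refine ⟨_, hp, ⟨e, hg, rfl⟩, ⟨fun i => ?_, fun i => ?_⟩, hf.nz⟩
  · have := hf.bnd.le i
    rw [wt_sw, r] at this
    exact Nat.le_of_mul_le_mul_left this hg
  · rw [hf.bnd.eq i, r, cmp_sw hg]

end Gen

variable {w : Fin 2 → ℕ} {d : ℕ} {f F : Fin 2 → A2 ℂ} {P : A2 ℂ}

theorem concl_W (hw : Pos w) (hd : 2 ≤ d) (hf : Reg w d f F) (hP : Irreducible P)
    (hinf : {z | eval z P = 0 ∧ Pre (ev f) z}.Infinite) : Concl f P := by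
  classical
  obtain ⟨K, hT, hK, hM⟩ := exists_subfield ((f 0).coeffs ∪ (f 1).coeffs ∪ P.coeffs)
  have lift : ∀ φ : A2 ℂ, φ.coeffs ⊆ (f 0).coeffs ∪ (f 1).coeffs ∪ P.coeffs →
      ∃ ψ : A2 K, map K.subtype ψ = φ := fun φ h =>
    mem_range_map_iff_coeffs_subset.2 fun c hc => ⟨⟨c, hT c (h hc)⟩, rfl⟩
  have hl : ∀ i, ∃ ψ : A2 K, map K.subtype ψ = f i := by
    refine Fin.forall_fin_two.2 ⟨lift _ ?_, lift _ ?_⟩
    · exact Finset.subset_union_left.trans Finset.subset_union_left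
    · exact Finset.subset_union_right.trans Finset.subset_union_left
  choose g hg using hl
  obtain ⟨φ, rfl⟩ := lift P Finset.subset_union_right
  obtain rfl : f = fun i => map K.subtype (g i) := funext fun i => (hg i).symm
  have hr := Tr_reg K.subtype hf
  have hi := Tr_irr K.subtype hP
  refine Tr_concl K.subtype hi ?_
  by_contra hc
  refine nb_all K.subtype hM hw d _ _ φ hd hr ⟨hi, fun hfin => hinf ?_, hc⟩
  refine (hfin.image fun u : Pt K => (K.subtype ∘ u : Pt ℂ)).subset fun z hz => ?_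
  obtain ⟨u, rfl⟩ := Tr_rat K.subtype hw.pos hd hr hz.2
  refine ⟨u, ⟨K.subtype.injective ?_, Tr_pre K.subtype hz.2⟩, rfl⟩
  rw [map_eval, map_zero]
  exact hz.1

theorem affine_W (hw : Pos w) (hd : 2 ≤ d) (hf : Reg w d f F) (hP : Irreducible P)
    (hinf : {z | eval z P = 0 ∧ Pre (ev f) z}.Infinite) :
    ∃ (m n : ℕ) (Q : A2 ℂ), m < n ∧ Img (iter f m) P Q ∧ Img (iter f n) P Q := by
  obtain ⟨R, hR, h⟩ := concl_W hw hd hf hP hinf
  have hq : ∀ n, ∃ Q, Img (iter f n) P Q := fun n =>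
    (hf.of_iter (by omega) n).exists_img hw.pos (Nat.one_le_pow _ _ (by omega)) hP
  choose Q hQ using hq
  obtain ⟨m, n, hmn, c, hc, e⟩ := exists_assoc_of_dvd hR Q (fun n => (hQ n).1) fun K => by
    obtain ⟨n, hn, h⟩ := h K
    refine ⟨n, hn, dvd_of_vanish (hQ n).1 fun z hz => ?_⟩
    obtain ⟨y, hy, rfl⟩ := ((hQ n).2 z).1 hz
    rw [ev_iter]
    exact h y hy
  refine ⟨m, n, Q m, hmn, hQ m, (hQ m).1, fun z => ?_⟩
  rw [← (hQ n).2 z, e, map_mul, eval_C, mul_eq_zero, or_iff_right hc]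

end Pool.Agent.Work.MP_0a826e_ag.W
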