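import Pool.Agent.Work.MP_0a826e_ag.W.C

/-!
Closed subsets of the complex affine plane with a dense set of preperiodic points.
-/

namespace Pool.Agent.Work.MP_0a826e_ag.W

open MvPolynomial Pool.Agent.Work.MP_0a826e_ag.R

variable {w : Fin 2 → ℕ} {d : ℕ} {f F : Fin 2 → A2 ℂ}

/-- a set cut out by polynomials -/
def CutA (Y : Set (Pt ℂ)) : Prop :=
  ∀ p, p ∉ Y → ∃ g : A2 ℂ, (∀ y ∈ Y, eval y g = 0) ∧ eval p g ≠ 0

theorem CutA.union {Y Z : Set (Pt ℂ)} (h : CutA Y) (h' : CutA Z) : CutA (Y ∪ Z) := by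
  intro p hp
  obtain ⟨g, h1, h2⟩ := h p fun hh => hp (Or.inl hh)
  obtain ⟨g', h1', h2'⟩ := h' p fun hh => hp (Or.inr hh)
  refine ⟨g * g', ?_, by rw [map_mul]; exact mul_ne_zero h2 h2'⟩
  rintro y (hy | hy)
  · rw [map_mul, h1 y hy, zero_mul]
  · rw [map_mul, h1' y hy, mul_zero]

theorem cutA_biUnion {ι : Type} {s : Set ι} (hs : s.Finite) (Y : ι → Set (Pt ℂ))
    (h : ∀ i ∈ s, CutA (Y i)) : CutA (⋃ i ∈ s, Y i) := by
  induction s, hs using Set.Finite.induction_on with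
  | empty => exact fun p _ => ⟨1, by simp, by simp⟩
  | insert _ _ ih =>
    rw [Set.biUnion_insert]
    exact (h _ (Set.mem_insert _ _)).union (ih fun i hi => h i (Set.mem_insert_of_mem _ hi))

theorem cutA_finite {Y : Set (Pt ℂ)} (hY : Y.Finite) : CutA Y := by
  rw [← Set.biUnion_of_singleton Y]
  refine cutA_biUnion hY _ fun q _ p hp => ?_
  obtain ⟨i, hi⟩ := Function.ne_iff.1 (show p ≠ q from hp)
  refine ⟨X i - C (q i), ?_, by simpa [sub_eq_zero] using hi⟩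
  rintro y rfl
  simp

theorem affine_main (hw : ∀ i, 0 < w i) (hd : 2 ≤ d) (hf : Reg w d f F) {Y S : Set (Pt ℂ)}
    (hY : CutA Y) (hSY : S ⊆ Y)
    (hdense : ∀ Q : A2 ℂ, (∀ y ∈ S, eval y Q = 0) → ∀ y ∈ Y, eval y Q = 0)
    (hpre : ∀ x ∈ S, Pre (ev f) x) : PreSet (ev f) Y := by
  classical
  obtain ⟨w', hw', -, hf'⟩ := exists_pos hw hf
  by_cases hne : Y = Set.univ
  · refine Pj3_fix ?_
    rw [hne, Set.image_univ]
    exact (hf.surjective hw (by omega)).range_eq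
  obtain ⟨p₀, hp₀⟩ := (Set.ne_univ_iff_exists_notMem Y).1 hne
  obtain ⟨R, hR1, hR2⟩ := hY p₀ hp₀
  have hR : R ≠ 0 := fun h => hR2 (by rw [h, map_zero])
  set T := UniqueFactorizationMonoid.factors R with hT
  have hTf : {P | P ∈ T}.Finite := T.finite_toSet
  set I : Set (A2 ℂ) := {P | P ∈ T ∧ {z | eval z P = 0 ∧ z ∈ S}.Infinite} with hI
  have hIf : I.Finite := hTf.subset fun P hP => hP.1
  have hIi : ∀ P ∈ I, Irreducible P := fun P hP =>
    UniqueFactorizationMonoid.irreducible_of_factor P hP.1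
  set E : Set (Pt ℂ) := {p | p ∈ S ∧ p ∉ ⋃ P ∈ I, {z | eval z P = 0}} with hE
  have hEf : E.Finite := by
    have h1 : (⋃ P ∈ {P | P ∈ T ∧ P ∉ I}, {z | eval z P = 0 ∧ z ∈ S}).Finite := by
      refine (hTf.subset fun P hP => hP.1).biUnion fun P hP => ?_
      by_contra hc
      exact hP.2 ⟨hP.1, hc⟩
    refine h1.subset fun p hp => ?_
    obtain ⟨P, hP, hz⟩ := Pj2_factor hR (hR1 p (hSY hp.1))
    exact Set.mem_biUnion (x := P) ⟨hP, fun hPI => hp.2 (Set.mem_biUnion hPI hz)⟩ ⟨hz, hp.1⟩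
  have e : Y = (⋃ P ∈ I, {z | eval z P = 0}) ∪ E := by
    refine Set.Subset.antisymm (fun p hp => ?_) ?_
    · by_contra hn
      obtain ⟨g, h3, h4⟩ := ((cutA_biUnion hIf (fun P => {z | eval z P = 0})
        fun P _ q hq => ⟨P, fun _ h => h, hq⟩).union (cutA_finite hEf)) p hn
      refine h4 (hdense g (fun q hq => h3 q ?_) p hp)
      by_cases a : q ∈ ⋃ P ∈ I, {z | eval z P = 0}
      exacts [Or.inl a, Or.inr ⟨hq, a⟩]
    · rintro p (hp | hp)
      · obtain ⟨P, hP, hpP⟩ := Set.mem_iUnion₂.1 hp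
        by_contra hn
        obtain ⟨g, h1, h2⟩ := hY p hn
        obtain ⟨c, hc⟩ := dvd_of_infinite (Q := g) (hIi P hP)
          (hP.2.mono fun z hz => ⟨hz.1, h1 z (hSY hz.2)⟩)
        exact h2 (by rw [hc, map_mul, show eval p P = 0 from hpP, zero_mul])
      · exact hSY hp.1
  rw [e]
  refine (preSet_biUnion hIf _ fun P hP => ?_).union (preSet_finite hEf fun x hx => hpre x hx.1)
  obtain ⟨m, n, Q, hmn, hm, hn⟩ := affine_W hw' hd hf' (hIi P hP)
    (hP.2.mono fun z hz => ⟨hz.1, hpre z hz.2⟩)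
  have im : ∀ j, Img (iter f j) P Q → (ev f)^[j] '' {z | eval z P = 0} = {z | eval z Q = 0} :=
    fun j h => Set.ext fun z => by
      rw [← ev_iter]
      exact (h.2 z).symm
  exact ⟨m, n - m, by omega, by rw [Nat.add_sub_cancel' hmn.le, im _ hm, im _ hn]⟩

theorem img_proper {D : ℕ} {g G : Fin 2 → A2 ℂ} (hw : ∀ i, 0 < w i) (hD : 1 ≤ D)
    (hg : Reg w D g G) {R : A2 ℂ} (hR : R ≠ 0) :
    ∃ Q : A2 ℂ, Q ≠ 0 ∧ ∀ z, eval z R = 0 → eval (ev g z) Q = 0 := by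
  obtain ⟨q, b, -, -, -, h1, h2⟩ := hg.exists_fr_sp hw hD
  obtain ⟨Q, hQ⟩ := exists_isNorm h2 R
  exact ⟨Q, hQ.ne_zero h1 hR, fun z hz => (hQ.eval_eq_zero h1 h2 _).2 ⟨z, hz, rfl⟩⟩

/-- a polynomial vanishing on a punctured orbit has all components vanishing there -/
theorem cmp_vanish {φ : A2 ℂ} {u : Pt ℂ} (h : ∀ l : ℂ, l ≠ 0 → eval (act w l u) φ = 0) (n : ℕ) :
    eval u (cmp w n φ) = 0 := by
  have e : (Hw w φ).map (eval u) = 0 := Polynomial.eq_zero_of_infinite_isRoot _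
    (((Set.finite_singleton (0 : ℂ)).infinite_compl).mono fun l hl => by
      have := h l hl
      rwa [eval_act] at this)
  have := congrArg (Polynomial.coeff · n) e
  simpa [R.cmp] using this

end Pool.Agent.Work.MP_0a826e_ag.W
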