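import Mathlib

/-!
Weighted projective planes over `ℂ`, their Zariski closed subsets and self-maps.
-/

namespace Pool.Agent.Work.MP_0a826e_ag.W

open MvPolynomial

/-- `u` and `v` lie in one orbit of the action `t • (v_i) = (t ^ w_i * v_i)` of `ℂˣ`. -/
def wrel (w : Fin 3 → ℕ) : Setoid {v : Fin 3 → ℂ // v ≠ 0} where
  r u v := ∃ t : ℂ, t ≠ 0 ∧ ∀ i, v.1 i = t ^ w i * u.1 i
  iseqv :=
    ⟨fun _ => ⟨1, one_ne_zero, fun _ => by rw [one_pow, one_mul]⟩,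
      fun ⟨t, ht, h⟩ => ⟨t⁻¹, inv_ne_zero ht, fun i => by
        rw [h i, ← mul_assoc, ← mul_pow, inv_mul_cancel₀ ht, one_pow, one_mul]⟩,
      fun ⟨t, ht, h⟩ ⟨s, hs, h'⟩ => ⟨s * t, mul_ne_zero hs ht, fun i => by
        rw [h' i, h i, mul_pow, mul_assoc]⟩⟩

/-- The weighted projective plane `P(w_0, w_1, w_2)`. -/
def WP (w : Fin 3 → ℕ) : Type := Quotient (wrel w)

/-- The point `[v]`. -/
def pt (w : Fin 3 → ℕ) (v : Fin 3 → ℂ) (hv : v ≠ 0) : WP w := Quotient.mk (wrel w) ⟨v, hv⟩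

/-- A chosen representative of a point. -/
noncomputable def rep {w : Fin 3 → ℕ} (p : WP w) : Fin 3 → ℂ := (Quotient.out p).1

/-- The self-map `[v] ↦ [F(v)]`. -/
noncomputable def wmap (w : Fin 3 → ℕ) (F : Fin 3 → MvPolynomial (Fin 3) ℂ)
    (hF : ∀ v : Fin 3 → ℂ, v ≠ 0 → (fun i => eval v (F i)) ≠ 0) (p : WP w) : WP w :=
  pt w (fun i => eval (rep p) (F i)) (hF _ (Quotient.out p).2)

/-- The ideal of all polynomials vanishing on the cone over `Y`. -/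
noncomputable def wideal (w : Fin 3 → ℕ) (Y : Set (WP w)) : Ideal (MvPolynomial (Fin 3) ℂ) :=
  vanishingIdeal ℂ {v : Fin 3 → ℂ | ∃ hv : v ≠ 0, pt w v hv ∈ Y}

end Pool.Agent.Work.MP_0a826e_ag.W
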