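import Pool.Agent.Work.MP_0a826e_ag.W.D
import Pool.Agent.Work.MP_0a826e_ag.W.Defs

/-!
The affine chart of a weighted projective plane.
-/

namespace Pool.Agent.Work.MP_0a826e_ag.W

open MvPolynomial Pool.Agent.Work.MP_0a826e_ag.R

variable {w : Fin 3 → ℕ} {d e : ℕ} {g : A3} {F : Fin 3 → A3}

/-- the weights of the affine coordinates -/
def wp (w : Fin 3 → ℕ) : Fin 2 → ℕ := fun i => w i.succ

theorem pt_eq_iff {u v : Fin 3 → ℂ} (hu : u ≠ 0) (hv : v ≠ 0) :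
    pt w u hu = pt w v hv ↔ ∃ t : ℂ, t ≠ 0 ∧ ∀ i, v i = t ^ w i * u i := Quotient.eq

theorem pt_rep (p : WP w) : pt w (rep p) (Quotient.out p).2 = p := Quotient.out_eq p

theorem exists_pt (p : WP w) : ∃ v hv, p = pt w v hv := ⟨_, _, (pt_rep p).symm⟩

theorem rep_pt (v : Fin 3 → ℂ) (hv : v ≠ 0) :
    ∃ t : ℂ, t ≠ 0 ∧ ∀ i, rep (pt w v hv) i = t ^ w i * v i :=
  (pt_eq_iff hv _).1 (pt_rep _).symm

theorem rep_zero (v : Fin 3 → ℂ) (hv : v ≠ 0) : rep (pt w v hv) 0 = 0 ↔ v 0 = 0 := by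
  obtain ⟨t, ht, h⟩ := rep_pt (w := w) v hv
  rw [h 0, mul_eq_zero, or_iff_right (pow_ne_zero _ ht)]

theorem wdeg3 (hg : g.IsWeightedHomogeneous w e) {a : Fin 3 →₀ ℕ} (ha : a ∈ g.support) :
    w 0 * a 0 + w 1 * a 1 + w 2 * a 2 = e := by
  have h := hg (mem_support_iff.1 ha)
  rw [Finsupp.weight_apply, Finsupp.sum_fintype _ _ (fun i => by simp), Fin.sum_univ_three] at h
  simpa [mul_comm] using h

theorem eval_wact (hg : g.IsWeightedHomogeneous w e) {t : ℂ} {u v : Fin 3 → ℂ}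
    (h : ∀ i, v i = t ^ w i * u i) : eval v g = t ^ e * eval u g := by
  rw [eval_eq', eval_eq', Finset.mul_sum]
  refine Finset.sum_congr rfl fun a ha => ?_
  rw [← wdeg3 hg ha]
  simp only [Fin.prod_univ_three, h, mul_pow, pow_add, pow_mul]
  ring

theorem wmap_pt (hom : ∀ i, (F i).IsWeightedHomogeneous w (d * w i))
    (hF : ∀ v : Fin 3 → ℂ, v ≠ 0 → (fun i => eval v (F i)) ≠ 0) (v : Fin 3 → ℂ) (hv : v ≠ 0) :
    wmap w F hF (pt w v hv) = pt w (fun i => eval v (F i)) (hF v hv) := by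
  obtain ⟨t, ht, h⟩ := rep_pt (w := w) v hv
  exact ((pt_eq_iff _ _).2 ⟨t ^ d, pow_ne_zero _ ht, fun i => by
    rw [eval_wact (hom i) h, pow_mul]⟩).symm

theorem ne_aff (z : Pt ℂ) : (![1, z 0, z 1] : Fin 3 → ℂ) ≠ 0 := fun h => by
  simpa using congrFun h 0

theorem ne_inf {u : Pt ℂ} (hu : u ≠ 0) : (![0, u 0, u 1] : Fin 3 → ℂ) ≠ 0 := fun h => hu (by
  funext i
  fin_cases i
  · simpa using congrFun h 1
  · simpa using congrFun h 2)

/-- the affine point `[1 : z0 : z1]` -/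
def affW (w : Fin 3 → ℕ) (z : Pt ℂ) : WP w := pt w ![1, z 0, z 1] (ne_aff z)

/-- the point at infinity `[0 : u0 : u1]` -/
def infW (w : Fin 3 → ℕ) (u : Pt ℂ) (hu : u ≠ 0) : WP w := pt w ![0, u 0, u 1] (ne_inf hu)

theorem aff_of_root {v : Fin 3 → ℂ} (hv : v ≠ 0) {t : ℂ} (ht : t ≠ 0) (h : t ^ w 0 = v 0) :
    affW w (act (wp w) t⁻¹ (v ∘ Fin.succ)) = pt w v hv := by
  refine (pt_eq_iff _ _).2 ⟨t, ht, fun i => ?_⟩
  fin_cases i
  · simp [h]
  · simp [act, wp, ht]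
  · simp [act, wp, ht]

theorem exists_aff (hw : ∀ i, 0 < w i) {v : Fin 3 → ℂ} (hv : v ≠ 0) (h0 : v 0 ≠ 0) :
    ∃ z, pt w v hv = affW w z := by
  obtain ⟨t, ht⟩ := IsAlgClosed.exists_pow_nat_eq (v 0) (hw 0)
  exact ⟨_, (aff_of_root hv (fun e => h0 (by rw [← ht, e, zero_pow (hw 0).ne'])) ht).symm⟩

theorem eq_inf {v : Fin 3 → ℂ} (h0 : v 0 = 0) :
    v = ![0, (v ∘ Fin.succ) 0, (v ∘ Fin.succ) 1] := by
  funext i
  fin_cases i
  · exact h0
  · rfl
  · rfl

theorem exists_inf {v : Fin 3 → ℂ} (hv : v ≠ 0) (h0 : v 0 = 0) :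
    ∃ hu : v ∘ Fin.succ ≠ 0, pt w v hv = infW w _ hu := by
  refine ⟨fun e => hv ?_, ?_⟩
  · rw [eq_inf h0, e]
    simp
  · unfold infW
    congr 1
    exact eq_inf h0

theorem infW_eq_iff {u v : Pt ℂ} (hu : u ≠ 0) (hv : v ≠ 0) :
    infW w u hu = infW w v hv ↔ Cls (wp w) u v := by
  unfold infW
  rw [pt_eq_iff]
  refine exists_congr fun t => and_congr_right fun _ => ⟨fun h => funext fun i => ?_, fun h i => ?_⟩
  · fin_cases i
    · simpa [act, wp] using h 1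
    · simpa [act, wp] using h 2
  · subst h
    fin_cases i <;> simp [act, wp]

theorem aff_eq {z y : Pt ℂ} (h : affW w z = affW w y) :
    ∃ t : ℂ, t ^ w 0 = 1 ∧ y = act (wp w) t z := by
  obtain ⟨t, -, h⟩ := (pt_eq_iff _ _).1 h
  refine ⟨t, by simpa using (h 0).symm, funext fun i => ?_⟩
  fin_cases i
  · simpa [act, wp] using h 1
  · simpa [act, wp] using h 2

theorem aff_fibre (hw : ∀ i, 0 < w i) (p : WP w) : (affW w ⁻¹' {p}).Finite := by
  classical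
  rcases (affW w ⁻¹' {p}).eq_empty_or_nonempty with e | ⟨z, hz⟩
  · rw [e]
    exact Set.finite_empty
  · refine ((Polynomial.nthRoots (w 0) (1 : ℂ)).toFinset.finite_toSet.image
      fun t => act (wp w) t z).subset fun y hy => ?_
    obtain ⟨t, ht, rfl⟩ := aff_eq ((show affW w z = p from hz).trans (show affW w y = p from hy).symm)
    exact ⟨t, by simpa [Polynomial.mem_nthRoots (hw 0)] using ht, rfl⟩

theorem mono_hom (c : ℂ) (a b : ℕ) :
    IsHom (wp w) (w 1 * a + w 2 * b) (C c * (X 0 ^ a * X 1 ^ b) : A2 ℂ) := by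
  have h := (((isHom_X (k := ℂ) (wp w) 0).pow a).mul ((isHom_X (wp w) 1).pow b)).C_mul c
  rwa [mul_comm a, mul_comm b] at h

theorem deh_spec_w (hw : 0 < w 0) (hg : g.IsWeightedHomogeneous w e) :
    wt (wp w) (deh g) ≤ e ∧ R.cmp (wp w) e (deh g) = res g := by
  have e1 : deh g = ∑ d ∈ g.support, deh (monomial d (coeff d g)) := by
    conv_lhs => rw [g.as_sum]
    simp only [deh, map_sum]
  have e2 : res g = ∑ d ∈ g.support, res (monomial d (coeff d g)) := by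
    conv_lhs => rw [g.as_sum]
    simp only [res, map_sum]
  constructor
  · rw [e1]
    refine wt_sum_le _ _ fun d hd => ?_
    rw [Pj1_deh_monomial]
    have h1 := wdeg3 hg hd
    exact (mono_hom _ _ _).wt_le.trans (by omega)
  · rw [e1, e2, cmp_sum]
    refine Finset.sum_congr rfl fun d hd => ?_
    rw [Pj1_deh_monomial, Pj1_res_monomial]
    have h1 := wdeg3 hg hd
    by_cases h0 : d 0 = 0
    · rw [h0, mul_zero, zero_add] at h1
      rw [h0, pow_zero, one_mul, ← h1]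
      exact (mono_hom _ _ _).cmp_self
    · have := Nat.mul_pos hw (Nat.pos_of_ne_zero h0)
      rw [zero_pow h0, zero_mul]
      exact (mono_hom _ _ _).cmp_ne (by omega)

theorem exists_affine_w (hw : ∀ i, 0 < w i) (hom : ∀ i, (F i).IsWeightedHomogeneous w (d * w i))
    (hF : ∀ v : Fin 3 → ℂ, v ≠ 0 → (fun i => eval v (F i)) ≠ 0)
    (h0 : ∀ v, v ≠ 0 → (eval v (F 0) = 0 ↔ v 0 = 0)) :
    ∃ f G : Fin 2 → A2 ℂ, Reg (wp w) d f G ∧
      (∀ z, wmap w F hF (affW w z) = affW w (ev f z)) ∧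
      ∀ u (hu : u ≠ 0) (hu' : ev G u ≠ 0), wmap w F hF (infW w u hu) = infW w (ev G u) hu' := by
  have hu : IsUnit (deh (F 0)) := by
    by_contra hn
    obtain ⟨z, hz⟩ := (zeros_infinite hn).nonempty
    have h1 : eval z (deh (F 0)) = 0 := hz
    rw [eval_deh] at h1
    simpa using (h0 _ (ne_aff z)).1 h1
  obtain ⟨c, hc, e⟩ := isUnit_iff_C.1 hu
  obtain ⟨t, ht⟩ := IsAlgClosed.exists_pow_nat_eq c⁻¹ (hw 0)
  have t0 : t ≠ 0 := fun q => inv_ne_zero hc (by rw [← ht, q, zero_pow (hw 0).ne'])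
  have hG : ∀ u : Pt ℂ, u ≠ 0 → ∀ i, (![0, ev (fun i => C (t ^ wp w i) * res (F i.succ)) u 0,
      ev (fun i => C (t ^ wp w i) * res (F i.succ)) u 1] : Fin 3 → ℂ) i =
      t ^ w i * eval ![0, u 0, u 1] (F i) := by
    intro u hu i
    fin_cases i
    · simp [(h0 _ (ne_inf hu)).2 rfl]
    · simp [ev, eval_res, wp]
    · simp [ev, eval_res, wp]
  refine ⟨fun i => C (t ^ wp w i) * deh (F i.succ), fun i => C (t ^ wp w i) * res (F i.succ),
    ⟨⟨fun i => ?_, fun i => ?_⟩, fun u hu => ?_⟩, fun z => ?_, fun u hu hu' => ?_⟩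
  · rw [wt_C_mul (pow_ne_zero _ t0)]
    exact (deh_spec_w (hw 0) (hom _)).1
  · rw [cmp_C_mul]
    exact congrArg _ (deh_spec_w (hw 0) (hom _)).2.symm
  · by_contra hne
    refine hF _ (ne_inf hne) (funext fun i => ?_)
    have := hG u hne i
    rw [hu] at this
    refine (mul_eq_zero.1 (this.symm.trans ?_)).resolve_left (pow_ne_zero _ t0)
    fin_cases i <;> simp
  · unfold affW
    rw [wmap_pt hom, pt_eq_iff]
    refine ⟨t, t0, fun i => ?_⟩
    fin_cases i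
    · have h1 := eval_deh (F 0) z
      rw [e, eval_C] at h1
      simp [← h1, ht, hc]
    · simp [ev, eval_deh, wp]
    · simp [ev, eval_deh, wp]
  · unfold infW
    rw [wmap_pt hom, pt_eq_iff]
    exact ⟨t, t0, hG u hu⟩

/-- the part of the homogenisation with exponent of `t` congruent to `r`, where `x_0 = t ^ w 0` -/
noncomputable def hm (w : Fin 3 → ℕ) (Q : A2 ℂ) (r : ℕ) : A3 :=
  ∑ n ∈ Finset.range (wt (wp w) Q + 1), if (wt (wp w) Q - n) % w 0 = r then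
    X 0 ^ ((wt (wp w) Q - n) / w 0) * rename Fin.succ (R.cmp (wp w) n Q) else 0

theorem eval_hm (Q : A2 ℂ) (r : ℕ) (v : Fin 3 → ℂ) : eval v (hm w Q r) =
    ∑ n ∈ Finset.range (wt (wp w) Q + 1), if (wt (wp w) Q - n) % w 0 = r then
      v 0 ^ ((wt (wp w) Q - n) / w 0) * eval (v ∘ Fin.succ) (R.cmp (wp w) n Q) else 0 := by
  rw [hm, map_sum]
  refine Finset.sum_congr rfl fun n _ => ?_
  split_ifs
  · rw [map_mul, map_pow, eval_X, eval_rename]
  · exact map_zero _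

theorem hm_sum (hw : 0 < w 0) (Q : A2 ℂ) {v : Fin 3 → ℂ} {t : ℂ} (h : t ^ w 0 = v 0) {z : Pt ℂ}
    (hz : v ∘ Fin.succ = act (wp w) t z) :
    ∑ r ∈ Finset.range (w 0), eval v (hm w Q r) * t ^ r = t ^ wt (wp w) Q * eval z Q := by
  simp only [eval_hm, Finset.sum_mul]
  rw [Finset.sum_comm]
  conv_rhs => rw [← sum_cmp (wp w) Q, map_sum, Finset.mul_sum]
  rw [sum_cmp]
  refine Finset.sum_congr rfl fun n hn => ?_
  have hn' := Nat.lt_succ_iff.1 (Finset.mem_range.1 hn)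
  simp only [ite_mul, zero_mul, Finset.sum_ite_eq, Finset.mem_range, Nat.mod_lt _ hw, if_true]
  rw [hz, (isHom_cmp _ _ _).eval_act_eq, ← h, ← pow_mul]
  have : t ^ wt (wp w) Q =
      t ^ (w 0 * ((wt (wp w) Q - n) / w 0)) * t ^ n * t ^ ((wt (wp w) Q - n) % w 0) := by
    rw [← pow_add, ← pow_add]
    congr 1
    have := Nat.div_add_mod (wt (wp w) Q - n) (w 0)
    omega
  rw [this]
  ring

theorem hm_vanish (hw : ∀ i, 0 < w i) {Z : Set (WP w)} {Q : A2 ℂ}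
    (hQ : ∀ z, affW w z ∈ Z → eval z Q = 0) {v : Fin 3 → ℂ} (hv : v ≠ 0) (hZ : pt w v hv ∈ Z)
    (h0 : v 0 ≠ 0) {r : ℕ} (hr : r < w 0) : eval v (hm w Q r) = 0 := by
  obtain ⟨t, ht⟩ := IsAlgClosed.exists_pow_nat_eq (v 0) (hw 0)
  have hζ := Complex.isPrimitiveRoot_exp (w 0) (hw 0).ne'
  generalize Complex.exp _ = ζ at hζ
  have t0 : t ≠ 0 := fun e => h0 (by rw [← ht, e, zero_pow (hw 0).ne'])
  have e : (∑ r ∈ Finset.range (w 0), Polynomial.monomial r (eval v (hm w Q r))) = 0 := by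
    refine Polynomial.eq_zero_of_natDegree_lt_card_of_eval_eq_zero _
      (f := fun i : Fin (w 0) => ζ ^ (i : ℕ) * t)
      (fun i j e => Fin.ext (hζ.pow_inj i.2 j.2 (mul_right_cancel₀ t0 e))) (fun i => ?_) ?_
    · have s0 : ζ ^ (i : ℕ) * t ≠ 0 := mul_ne_zero (pow_ne_zero _ (hζ.ne_zero (hw 0).ne')) t0
      have s1 : (ζ ^ (i : ℕ) * t) ^ w 0 = v 0 := by
        rw [mul_pow, ← pow_mul, mul_comm (i : ℕ), pow_mul, hζ.pow_eq_one, one_pow, one_mul, ht]
      generalize ζ ^ (i : ℕ) * t = s at s0 s1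
      simp only [Polynomial.eval_finsetSum, Polynomial.eval_monomial]
      rw [hm_sum (hw 0) Q s1 (z := act (wp w) s⁻¹ (v ∘ Fin.succ))
        (by rw [act_act, mul_inv_cancel₀ s0, act_one]),
        hQ _ (by rwa [aff_of_root hv s0 s1]), mul_zero]
    · rw [Fintype.card_fin]
      refine lt_of_le_of_lt (Polynomial.natDegree_sum_le_of_forall_le _ _ fun i hi =>
        (Polynomial.natDegree_monomial_le _).trans (Nat.le_sub_one_of_lt (Finset.mem_range.1 hi)))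
        (Nat.sub_one_lt (hw 0).ne')
  have h2 := congrArg (fun q : Polynomial ℂ => q.coeff r) e
  simpa [Polynomial.finsetSum_coeff, Polynomial.coeff_monomial, hr] using h2

theorem hm_inf (Q : A2 ℂ) {v : Fin 3 → ℂ} (h0 : v 0 = 0) :
    eval v (hm w Q 0) = eval (v ∘ Fin.succ) (top (wp w) Q) := by
  rw [eval_hm, Finset.sum_range_succ, Nat.sub_self, Nat.zero_mod, if_pos rfl, Nat.zero_div,
    pow_zero, one_mul, top_eq_cmp, Finset.sum_eq_zero, zero_add]
  intro n hn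
  have h2 := Finset.mem_range.1 hn
  split_ifs with h
  · have := Nat.div_add_mod (wt (wp w) Q - n) (w 0)
    rw [h0, zero_pow, zero_mul]
    intro q
    rw [q, h] at this
    omega
  · rfl

end Pool.Agent.Work.MP_0a826e_ag.W
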