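import Pool.Agent.Work.MP_0a826e_ag.W.Main

/-!
Change of coordinates: an arbitrary coordinate form in place of `x_0`.
-/

namespace Pool.Agent.Work.MP_0a826e_ag.W

open MvPolynomial Pool.Agent.Work.MP_0a826e_ag.R

variable {w w' : Fin 3 → ℕ} {d : ℕ} {F A B : Fin 3 → A3}

theorem hom_aeval {g : A3} {e D : ℕ} (hg : g.IsWeightedHomogeneous w e)
    (hA : ∀ j, (A j).IsWeightedHomogeneous w' (D * w j)) :
    (aeval A g).IsWeightedHomogeneous w' (D * e) := by
  rw [g.as_sum, map_sum]
  refine IsWeightedHomogeneous.sum _ _ _ fun a ha => ?_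
  rw [aeval_monomial, Finsupp.prod_fintype _ _ (fun i => pow_zero _), Fin.prod_univ_three,
    algebraMap_eq, ← wdeg3 hg ha]
  have := ((((hA 0).pow (a 0)).mul ((hA 1).pow (a 1))).mul ((hA 2).pow (a 2))).C_mul (coeff a g)
  convert this using 1
  simp only [smul_eq_mul]
  ring

theorem transport (hd : 2 ≤ d) (hw' : ∀ i, 0 < w' i)
    (hA : ∀ j, (A j).IsWeightedHomogeneous w (w' j))
    (hB : ∀ j, (B j).IsWeightedHomogeneous w' (w j))
    (hAB : ∀ v j, eval (fun i => eval v (B i)) (A j) = v j)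
    (hBA : ∀ v j, eval (fun i => eval v (A i)) (B j) = v j) (hw : ∀ i, 0 < w i)
    (hom : ∀ i, (F i).IsWeightedHomogeneous w (d * w i))
    (hF : ∀ v : Fin 3 → ℂ, v ≠ 0 → (fun i => eval v (F i)) ≠ 0)
    (hinv : wmap w F hF ⁻¹' {p | eval (rep p) (A 0) = 0} = {p | eval (rep p) (A 0) = 0})
    {Y S : Set (WP w)}
    (hY : ∀ v (hv : v ≠ 0), (∀ g ∈ wideal w Y, eval v g = 0) → pt w v hv ∈ Y) (hSY : S ⊆ Y)
    (hdense : wideal w S = wideal w Y) (hpre : ∀ x ∈ S, Pre (wmap w F hF) x) :
    PreSet (wmap w F hF) Y := by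
  have z0 : ∀ {u : Fin 3 → ℕ} {g : A3} {e : ℕ}, (∀ i, 0 < u i) → 0 < e →
      g.IsWeightedHomogeneous u e → eval 0 g = 0 := fun hu he hg => by
    rw [eval_wact hg (t := 0) (u := 0) (v := 0) fun i => by simp, zero_pow he.ne', zero_mul]
  have nA : ∀ v : Fin 3 → ℂ, v ≠ 0 → (fun i => eval v (A i)) ≠ 0 := fun v hv e =>
    hv (funext fun j => by rw [← hBA v j, e]; exact z0 hw' (hw j) (hB j))
  have nB : ∀ v : Fin 3 → ℂ, v ≠ 0 → (fun i => eval v (B i)) ≠ 0 := fun v hv e =>
    hv (funext fun j => by rw [← hAB v j, e]; exact z0 hw (hw' j) (hA j))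
  let F' : Fin 3 → A3 := fun j => aeval B (aeval F (A j))
  have eF : ∀ v j, eval v (F' j) =
      eval (fun i => eval (fun i => eval v (B i)) (F i)) (A j) := fun v j => by
    simp only [F', eval_aeval3]
  have hom' : ∀ j, (F' j).IsWeightedHomogeneous w' (d * w' j) := fun j => by
    have := hom_aeval (D := 1) (hom_aeval (hA j) hom) fun i => by simpa using hB i
    rwa [one_mul] at this
  have hF' : ∀ v : Fin 3 → ℂ, v ≠ 0 → (fun i => eval v (F' i)) ≠ 0 := fun v hv => by
    simp only [eF]
    exact nA _ (hF _ (nB v hv))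
  let β : WP w' → WP w := fun p => pt w (fun i => eval (rep p) (B i)) (nB _ (Quotient.out p).2)
  have hβ : ∀ v hv, β (pt w' v hv) = pt w (fun i => eval v (B i)) (nB v hv) := fun v hv => by
    obtain ⟨t, ht, h⟩ := rep_pt (w := w') v hv
    exact ((pt_eq_iff _ _).2 ⟨t, ht, fun i => eval_wact (hB i) h⟩).symm
  have βA : ∀ v hv, β (pt w' (fun i => eval v (A i)) (nA v hv)) = pt w v hv := fun v hv => by
    rw [hβ]
    congr 1
    exact funext (hBA v)
  have surj : Function.Surjective β := fun p => by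
    obtain ⟨v, hv, rfl⟩ := exists_pt p
    exact ⟨_, βA v hv⟩
  have inj : Function.Injective β := fun p q e => by
    obtain ⟨u, hu, rfl⟩ := exists_pt p
    obtain ⟨v, hv, rfl⟩ := exists_pt q
    rw [hβ, hβ, pt_eq_iff] at e
    obtain ⟨t, ht, h⟩ := e
    exact (pt_eq_iff _ _).2 ⟨t, ht, fun i => by rw [← hAB v i, eval_wact (hA i) h, hAB]⟩
  have sc : Function.Semiconj β (wmap w' F' hF') (wmap w F hF) := fun p => by
    obtain ⟨v, hv, rfl⟩ := exists_pt p
    rw [wmap_pt hom', hβ, hβ, wmap_pt hom]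
    congr 1
    funext i
    simp only [eF, hBA]
  have hL : ∀ p, rep p 0 = 0 ↔ eval (rep (β p)) (A 0) = 0 := fun p => by
    obtain ⟨v, hv, rfl⟩ := exists_pt p
    obtain ⟨t, ht, h⟩ := rep_pt (w := w) _ (nB v hv)
    rw [rep_zero, hβ, eval_wact (hA 0) h, hAB, mul_eq_zero, or_iff_right (pow_ne_zero _ ht)]
  have hI : ∀ (Z : Set (WP w)) g, g ∈ wideal w' (β ⁻¹' Z) ↔ aeval A g ∈ wideal w Z := fun Z g => by
    rw [mem_wideal, mem_wideal]
    constructor
    · intro h v hv hZ
      rw [eval_aeval3]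
      exact h _ (nA v hv) (by rwa [Set.mem_preimage, βA])
    · intro h v hv hZ
      rw [Set.mem_preimage, hβ] at hZ
      have := h _ _ hZ
      rwa [eval_aeval3, show (fun i => eval (fun i => eval v (B i)) (A i)) = v from
        funext (hAB v)] at this
  obtain ⟨m, l, hl, e⟩ := main hw' hd hom' hF' (Y := β ⁻¹' Y) (S := β ⁻¹' S)
    (Set.ext fun p => by
      have := Set.ext_iff.1 hinv (β p)
      simp only [Set.mem_preimage, Set.mem_ofPred_eq] at this ⊢
      rw [hL, hL p, sc p, this])
    (fun v hv h => by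
      rw [Set.mem_preimage, hβ]
      refine hY _ _ fun g hg => ?_
      rw [← eval_aeval3]
      refine h _ (mem_wideal.2 fun u hu hZ => ?_)
      rw [Set.mem_preimage, hβ] at hZ
      rw [eval_aeval3]
      exact mem_wideal.1 hg _ _ hZ)
    (Set.preimage_mono hSY) (Ideal.ext fun g => by rw [hI, hI, hdense])
    fun x hx => ((hpre _ hx).preimage inj.injOn).subset (by
      rintro _ ⟨n, rfl⟩
      exact ⟨n, (sc.iterate_right n x).symm⟩)
  have im : ∀ n, (wmap w F hF)^[n] '' Y = β '' ((wmap w' F' hF')^[n] '' (β ⁻¹' Y)) := fun n => by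
    conv_lhs => rw [← Set.image_preimage_eq Y surj]
    simp only [Set.image_image, sc.iterate_right n _]
  exact ⟨m, l, hl, by rw [im, im, e]⟩

theorem eval_indep (hw : ∀ i, 0 < w i) {l : A3} {i : Fin 3} (hl : l.IsWeightedHomogeneous w (w i))
    {u v : Fin 3 → ℂ} (h : ∀ j, j ≠ i → u j = v j) :
    eval u (l - C (coeff (Finsupp.single i 1) l) * X i) =
      eval v (l - C (coeff (Finsupp.single i 1) l) * X i) := by
  rw [eval_eq', eval_eq']
  refine Finset.sum_congr rfl fun a ha => congrArg _ (Finset.prod_congr rfl fun j _ => ?_)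
  by_cases e : j = i
  · subst e
    have a0 : a j = 0 := by
      by_contra q
      rw [mem_support_iff, coeff_sub, C_mul_X_eq_monomial, coeff_monomial] at ha
      split_ifs at ha with c
      · exact ha (by rw [c, sub_self])
      · rw [sub_zero] at ha
        have h1 := wdeg3 hl (mem_support_iff.2 ha)
        have p0 := hw 0
        have p1 := hw 1
        have p2 := hw 2
        have q' := Nat.le_mul_of_pos_right (w j) (Nat.pos_of_ne_zero q)
        have s : ∀ x : Fin 3, w x * a x = 0 → a x = 0 := fun x hx =>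
          (mul_eq_zero.1 hx).resolve_left (hw x).ne'
        have t : w j * a j = w j → a j = 1 := fun hx =>
          Nat.eq_of_mul_eq_mul_left (hw j) (hx.trans (mul_one _).symm)
        refine c (Finsupp.ext fun x => ?_)
        fin_cases j <;> fin_cases x <;>
          simp only [Fin.zero_eta, Fin.mk_one, Fin.reduceFinMk, Fin.isValue] at * <;>
          first
            | (rw [Finsupp.single_eq_same]; exact (t (by omega)).symm)
            | (rw [Finsupp.single_eq_of_ne (by decide)]; exact (s _ (by omega)).symm)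
    rw [a0, pow_zero, pow_zero]
  · rw [h j e]

theorem general (hw : ∀ i, 0 < w i) (hd : 2 ≤ d)
    (hom : ∀ i, (F i).IsWeightedHomogeneous w (d * w i))
    (hF : ∀ v : Fin 3 → ℂ, v ≠ 0 → (fun i => eval v (F i)) ≠ 0)
    {l : A3} {i : Fin 3} (hl : l.IsWeightedHomogeneous w (w i))
    (hc : coeff (Finsupp.single i 1) l ≠ 0)
    (hinv : wmap w F hF ⁻¹' {p | eval (rep p) l = 0} = {p | eval (rep p) l = 0})
    {Y S : Set (WP w)}
    (hY : ∀ v (hv : v ≠ 0), (∀ g ∈ wideal w Y, eval v g = 0) → pt w v hv ∈ Y) (hSY : S ⊆ Y)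
    (hdense : wideal w S = wideal w Y) (hpre : ∀ x ∈ S, Pre (wmap w F hF) x) :
    PreSet (wmap w F hF) Y := by
  classical
  have ind := fun u v => eval_indep hw hl (u := u) (v := v)
  have hh := hl.sub ((isWeightedHomogeneous_X ℂ w i).C_mul (coeff (Finsupp.single i 1) l))
  have el : ∀ v, eval v l = coeff (Finsupp.single i 1) l * v i +
      eval v (l - C (coeff (Finsupp.single i 1) l) * X i) := fun v => by simp
  generalize l - C (coeff (Finsupp.single i 1) l) * X i = h at ind hh el
  generalize coeff (Finsupp.single i 1) l = c at hc el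
  let σ := Equiv.swap (0 : Fin 3) i
  have s0 : σ 0 = i := Equiv.swap_apply_left _ _
  have ss : ∀ j, σ (σ j) = j := Equiv.swap_apply_self _ _
  have n0 : ∀ j, j ≠ i → σ j ≠ 0 := fun j hj e => hj (by rw [← ss j, e, s0])
  have ni : ∀ j, j ≠ 0 → σ j ≠ i := fun j hj e => hj (σ.injective (e.trans s0.symm))
  have hX : ∀ j, (X (σ j) : A3).IsWeightedHomogeneous (fun j => w (σ j)) (w j) := fun j => by
    simpa only [ss] using isWeightedHomogeneous_X ℂ (fun j => w (σ j)) (σ j)
  refine transport (w' := fun j => w (σ j)) (A := fun j => if j = 0 then l else X (σ j))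
    (B := fun j => if j = i then C c⁻¹ * (X 0 - aeval (fun j => X (σ j)) h) else X (σ j))
    hd (fun j => hw _) (fun j => ?_) (fun j => ?_) (fun v j => ?_) (fun v j => ?_) hw hom hF
    (by simpa using hinv) hY hSY hdense hpre
  · split_ifs with e
    · rwa [e, s0]
    · exact isWeightedHomogeneous_X ℂ w _
  · split_ifs with e
    · refine IsWeightedHomogeneous.C_mul (IsWeightedHomogeneous.sub ?_ ?_) _
      · simpa only [s0, e] using isWeightedHomogeneous_X ℂ (fun j => w (σ j)) 0
      · simpa [e] using hom_aeval (D := 1) hh fun j => by simpa using hX j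
    · exact hX j
  · split_ifs with e
    · rw [el, if_pos rfl, ind _ (fun j => v (σ j)) fun j hj => by rw [if_neg hj, eval_X], e]
      simp only [map_mul, map_sub, eval_C, eval_X, eval_aeval3]
      field_simp
      ring
    · rw [eval_X, if_neg (ni j e), eval_X, ss]
  · split_ifs with e
    · simp only [map_mul, map_sub, eval_C, eval_X, eval_aeval3, if_true]
      rw [ind _ v fun j hj => by rw [if_neg (n0 j hj), eval_X, ss], el, e]
      field_simp
      ring
    · rw [eval_X, if_neg (n0 j e), eval_X, ss]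

end Pool.Agent.Work.MP_0a826e_ag.W
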