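import Pool.Agent.Work.MP_0a826e_ag.W.E

/-!
The statement on weighted projective planes.
-/

namespace Pool.Agent.Work.MP_0a826e_ag.W

open MvPolynomial Pool.Agent.Work.MP_0a826e_ag.R

variable {w : Fin 3 → ℕ} {d : ℕ} {F : Fin 3 → A3}

theorem mem_wideal {Y : Set (WP w)} {g : A3} :
    g ∈ wideal w Y ↔ ∀ v (hv : v ≠ 0), pt w v hv ∈ Y → eval v g = 0 := by
  unfold wideal
  rw [mem_vanishingIdeal_iff]
  exact ⟨fun h v hv hY => by simpa [aeval_eq_eval] using h v ⟨hv, hY⟩,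
    fun h v ⟨hv, hY⟩ => by simpa [aeval_eq_eval] using h v hv hY⟩

theorem finite_zero_cls (hw : ∀ i, 0 < w i) {Φ : A2 ℂ} {n : ℕ} (hΦ : IsHom (wp w) n Φ)
    (h0 : Φ ≠ 0) : {p : WP w | ∃ u hu, p = infW w u hu ∧ eval u Φ = 0}.Finite := by
  have hw' : ∀ i, 0 < wp w i := fun i => hw _
  have hd := hΦ.dh_ne_zero (hw' 1) h0
  refine ((((dh Φ).roots.toFinset.finite_toSet).image
    fun z => infW w ![z, 1] (nez1 z)).insert (infW w ![1, 0] ne10)).subset ?_
  rintro _ ⟨v, hv, rfl, hz⟩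
  rcases exists_cls hw' hv with ⟨z, hc⟩ | hc
  · refine Or.inr ⟨z, ?_, (infW_eq_iff _ _).2 hc⟩
    rw [Finset.mem_coe, Multiset.mem_toFinset, Polynomial.mem_roots hd, Polynomial.IsRoot, eval_dh]
    exact (hc.eval_eq_zero hΦ).2 hz
  · exact Or.inl ((infW_eq_iff _ _).2 hc).symm

theorem cls_sw {w' : Fin 2 → ℕ} {e : ℕ} (he : 1 ≤ e) {u v : Pt ℂ} :
    Cls (sw e w') u v ↔ Cls w' u v := by
  constructor
  · rintro ⟨l, hl, rfl⟩
    exact ⟨l ^ e, pow_ne_zero _ hl, funext fun i => by simp [act, sw, pow_mul]⟩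
  · rintro ⟨l, hl, rfl⟩
    obtain ⟨s, rfl⟩ := IsAlgClosed.exists_pow_nat_eq l he
    exact ⟨s, fun q => hl (by rw [q, zero_pow (by omega)]),
      funext fun i => by simp [act, sw, pow_mul]⟩

/-- finitely many points at infinity are separated from another one by a polynomial -/
theorem separate {w' : Fin 2 → ℕ} (hw' : Pos w') {e : ℕ} (he : 1 ≤ e) (hwp : wp w = sw e w')
    {A : Set (WP w)} (hA : A.Finite) {v : Pt ℂ} (hv : v ≠ 0) (hp : infW w v hv ∉ A) :
    ∃ h : A2 ℂ, eval v h ≠ 0 ∧ ∀ u hu, infW w u hu ∈ A → eval u h = 0 := by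
  induction A, hA using Set.Finite.induction_on with
  | empty => exact ⟨1, by simp, fun _ _ h => absurd h (Set.notMem_empty _)⟩
  | @insert q A _ _ ih =>
    obtain ⟨h, h1, h2⟩ := ih fun m => hp (Set.mem_insert_of_mem _ m)
    by_cases c : ∃ u hu, q = infW w u hu
    · obtain ⟨u, hu, rfl⟩ := c
      have key : ∀ y (hy : y ≠ 0), eval y (lu w' u) = 0 ↔ infW w u hu = infW w y hy :=
        fun y hy => by rw [eval_lu_eq_zero hw' hu hy, infW_eq_iff, hwp, cls_sw he]
      refine ⟨h * lu w' u, ?_, fun y hy m => ?_⟩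
      · rw [map_mul]
        exact mul_ne_zero h1 fun z => hp (((key v hv).1 z) ▸ Set.mem_insert _ _)
      · rw [map_mul]
        rcases m with m | m
        · rw [(key y hy).2 m.symm, mul_zero]
        · rw [h2 y hy m, zero_mul]
    · exact ⟨h, h1, fun y hy m => h2 y hy (m.resolve_left fun z => c ⟨y, hy, z.symm⟩)⟩

theorem saturate (hw : 0 < w 0) {Q : A2 ℂ} (hQ : Q ≠ 0) :
    ∃ Q' : A2 ℂ, Q' ≠ 0 ∧ ∀ z y, affW w z = affW w y → eval y Q = 0 → eval z Q' = 0 := by
  classical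
  let sc : ℂ → Fin 2 → A2 ℂ := fun t i => C (t ^ wp w i) * X i
  have hs : ∀ t z, eval z (aeval (sc t) Q) = eval (act (wp w) t z) Q := fun t z => by
    rw [eval_aeval_ev]
    congr 2
    funext i
    simp [ev, sc, act]
  refine ⟨∏ t ∈ (Polynomial.nthRoots (w 0) (1 : ℂ)).toFinset, aeval (sc t) Q,
    Finset.prod_ne_zero_iff.2 fun t ht e => hQ (MvPolynomial.funext fun y => ?_),
    fun z y h hy => ?_⟩
  · have t1 : t ^ w 0 = 1 := by simpa [Polynomial.mem_nthRoots hw] using ht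
    have t0 : t ≠ 0 := fun q => by
      rw [q, zero_pow hw.ne'] at t1
      exact zero_ne_one t1
    have := hs t (act (wp w) t⁻¹ y)
    rw [e, act_act, mul_inv_cancel₀ t0, act_one] at this
    simpa using this.symm
  · obtain ⟨t, ht, rfl⟩ := aff_eq h
    rw [map_prod]
    exact Finset.prod_eq_zero (i := t) (by simpa [Polynomial.mem_nthRoots hw] using ht)
      ((hs t z).trans hy)

theorem eval_aeval3 (F : Fin 3 → A3) (v : Fin 3 → ℂ) (g : A3) :
    eval v (aeval F g) = eval (fun i => eval v (F i)) g := by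
  induction g using MvPolynomial.induction_on with
  | C c => simp
  | add p q hp hq => simp only [map_add, hp, hq]
  | mul_X p i hp => simp only [map_mul, hp, aeval_X, eval_X]

theorem exists_comp_iter (F : Fin 3 → A3) (n : ℕ) (g : A3) :
    ∃ g' : A3, ∀ v, eval v g' = eval ((fun v i => eval v (F i))^[n] v) g := by
  induction n with
  | zero => exact ⟨g, fun _ => rfl⟩
  | succ n ih =>
    obtain ⟨g', h⟩ := ih
    exact ⟨aeval F g', fun v => by rw [Function.iterate_succ_apply, ← h, eval_aeval3]⟩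

theorem iter_pt (hom : ∀ i, (F i).IsWeightedHomogeneous w (d * w i))
    (hF : ∀ v : Fin 3 → ℂ, v ≠ 0 → (fun i => eval v (F i)) ≠ 0) (n : ℕ) (v : Fin 3 → ℂ)
    (hv : v ≠ 0) :
    ∃ hv', (wmap w F hF)^[n] (pt w v hv) = pt w ((fun v i => eval v (F i))^[n] v) hv' := by
  induction n generalizing v with
  | zero => exact ⟨hv, rfl⟩
  | succ n ih =>
    rw [Function.iterate_succ_apply (wmap w F hF), wmap_pt hom]
    exact ih _ _

theorem zero_iff {u v : Fin 3 → ℂ} {hu : u ≠ 0} {hv : v ≠ 0} (h : pt w u hu = pt w v hv) :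
    u 0 = 0 ↔ v 0 = 0 := by
  rw [← rep_zero (w := w) u hu, h, rep_zero]

theorem main (hw : ∀ i, 0 < w i) (hd : 2 ≤ d)
    (hom : ∀ i, (F i).IsWeightedHomogeneous w (d * w i))
    (hF : ∀ v : Fin 3 → ℂ, v ≠ 0 → (fun i => eval v (F i)) ≠ 0)
    (hinv : wmap w F hF ⁻¹' {p | rep p 0 = 0} = {p | rep p 0 = 0}) {Y S : Set (WP w)}
    (hY : ∀ v (hv : v ≠ 0), (∀ g ∈ wideal w Y, eval v g = 0) → pt w v hv ∈ Y) (hSY : S ⊆ Y)
    (hdense : wideal w S = wideal w Y) (hpre : ∀ x ∈ S, Pre (wmap w F hF) x) :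
    PreSet (wmap w F hF) Y := by
  have hw' : ∀ i, 0 < wp w i := fun i => hw _
  have hL : ∀ p, rep (wmap w F hF p) 0 = 0 ↔ rep p 0 = 0 := fun p => Set.ext_iff.1 hinv p
  obtain ⟨f, G, hf, h1, h2⟩ := exists_affine_w hw hom hF fun v hv => by
    rw [← rep_zero (w := w) v hv, ← hL, wmap_pt hom, rep_zero]
  obtain ⟨w', hpos, ⟨e, he, hwp⟩, hf'⟩ := exists_pos hw' hf
  have it : ∀ n z, (wmap w F hF)^[n] (affW w z) = affW w ((ev f)^[n] z) := fun n z =>
    (Function.Semiconj.iterate_right (f := affW w) (fun z => (h1 z).symm) n z).symm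
  have hd2 : ∀ g : A3, (∀ v (hv : v ≠ 0), pt w v hv ∈ S → eval v g = 0) →
      ∀ v (hv : v ≠ 0), pt w v hv ∈ Y → eval v g = 0 := fun g hg =>
    mem_wideal.1 (hdense ▸ mem_wideal.2 hg)
  have cut : CutA (affW w ⁻¹' Y) := fun z hz => by
    by_contra hc
    push Not at hc
    refine hz (hY _ (ne_aff z) fun g hg => ?_)
    rw [← eval_deh]
    exact hc _ fun y hy => by
      rw [eval_deh]
      exact mem_wideal.1 hg _ _ hy
  have hA : PreSet (ev f) (affW w ⁻¹' Y) := by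
    refine affine_main hw' hd hf (S := affW w ⁻¹' S) cut (Set.preimage_mono hSY)
      (fun Q hQ y hy => ?_) fun x hx => ?_
    · have := hm_sum (hw 0) Q (v := ![1, y 0, y 1]) (t := 1) (by simp) (z := y) (by
        rw [act_one]
        funext i
        fin_cases i <;> rfl)
      rw [one_pow, one_mul] at this
      rw [← this]
      refine Finset.sum_eq_zero fun r hr => ?_
      have := hd2 (X 0 * hm w Q r) (fun v hv hS => by
        rw [map_mul, eval_X]
        by_cases h0 : v 0 = 0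
        · rw [h0, zero_mul]
        · rw [hm_vanish hw hQ hv hS h0 (Finset.mem_range.1 hr), mul_zero]) _ (ne_aff y) hy
      simpa using this
    · refine ((hpre _ hx).preimage' fun p _ => aff_fibre hw p).subset ?_
      rintro _ ⟨n, rfl⟩
      exact ⟨n, it n x⟩
  obtain ⟨m, l, hl, hml⟩ := hA
  have im : ∀ n (A : Set (Pt ℂ)), (wmap w F hF)^[n] '' (affW w '' A) =
      affW w '' ((ev f)^[n] '' A) := fun n A => by
    simp only [Set.image_image, it]
  have e0 : Y = affW w '' (affW w ⁻¹' Y) ∪ (Y ∩ {p | rep p 0 = 0}) := by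
    refine Set.Subset.antisymm (fun p hp => ?_)
      (Set.union_subset (Set.image_preimage_subset _ _) Set.inter_subset_left)
    obtain ⟨v, hv, rfl⟩ := exists_pt p
    by_cases h0 : v 0 = 0
    · exact Or.inr ⟨hp, (rep_zero v hv).2 h0⟩
    · obtain ⟨z, hz⟩ := exists_aff hw hv h0
      exact Or.inl ⟨z, show affW w z ∈ Y from hz ▸ hp, hz.symm⟩
  rw [e0]
  refine PreSet.union ⟨m, l, hl, by rw [im, im, hml]⟩ ?_
  by_cases hres : ∀ g ∈ wideal w Y, res g = 0
  · have sub : {p : WP w | rep p 0 = 0} ⊆ Y := fun p hp => by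
      obtain ⟨v, hv, rfl⟩ := exists_pt p
      refine hY v hv fun g hg => ?_
      rw [eq_inf ((rep_zero v hv).1 hp), ← eval_res, hres g hg, map_zero]
    rw [Set.inter_eq_right.2 sub]
    refine Pj3_fix (Set.Subset.antisymm ?_ fun p hp => ?_)
    · rintro _ ⟨p, hp, rfl⟩
      exact (hL p).2 hp
    · obtain ⟨v, hv, rfl⟩ := exists_pt p
      obtain ⟨hu, e1⟩ := exists_inf (w := w) hv ((rep_zero v hv).1 hp)
      obtain ⟨u, e2⟩ := hf.toTop.surjective hw' (by omega) (v ∘ Fin.succ)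
      have u0 : u ≠ 0 := fun q => hu (by rw [← e2, q, BM_ev_zero hpos (by omega) hf'])
      refine ⟨infW w u u0, (rep_zero _ _).2 rfl, ?_⟩
      rw [h2 u u0 (e2 ▸ hu), e1]
      congr 1
  push Not at hres
  obtain ⟨g, hg, hg0⟩ := hres
  have fin : (Y ∩ {p | rep p 0 = 0}).Finite := by
    refine (finite_zero_cls hw (isHom_top (wp w) (res g)) (top_ne_zero hg0)).subset ?_
    rintro p ⟨hp, hp0⟩
    obtain ⟨v, hv, rfl⟩ := exists_pt p
    obtain ⟨hu, e1⟩ := exists_inf (w := w) hv ((rep_zero v hv).1 hp0)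
    refine ⟨_, hu, e1, ?_⟩
    rw [top_eq_cmp]
    refine cmp_vanish (fun t ht => ?_) _
    rw [eval_res]
    refine mem_wideal.1 hg _ (ne_inf (act_ne_zero _ ht hu)) ?_
    have := (infW_eq_iff (w := w) hu (act_ne_zero (wp w) ht hu)).2 ⟨t, ht, rfl⟩
    rw [e1, this] at hp
    exact hp
  obtain ⟨R, hR1, hR⟩ : ∃ R : A2 ℂ, (∀ y ∈ affW w ⁻¹' Y, eval y R = 0) ∧ R ≠ 0 := by
    by_cases c : ∀ z, affW w z ∈ Y
    · refine absurd ?_ hg0
      have : X 0 * g = 0 := MvPolynomial.funext fun v => by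
        rw [map_mul, eval_X, map_zero]
        by_cases h0 : v 0 = 0
        · rw [h0, zero_mul]
        · have hv : v ≠ 0 := fun q => h0 (congrFun q 0)
          obtain ⟨z, hz⟩ := exists_aff hw hv h0
          rw [mem_wideal.1 hg v hv (hz ▸ c z), mul_zero]
      rw [(mul_eq_zero.1 this).resolve_left (X_ne_zero 0), res, map_zero]
    · push Not at c
      obtain ⟨z, hz⟩ := c
      obtain ⟨R, a, b⟩ := cut z hz
      exact ⟨R, a, fun q => b (by rw [q, map_zero])⟩
  obtain ⟨Q, hQ, hQ1⟩ := img_proper hw' (Nat.one_le_pow m d (by omega))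
    (hf.of_iter (by omega) m) hR
  obtain ⟨Q', hQ', hQ2⟩ := saturate (hw 0) hQ
  have hZ : ∀ z, affW w z ∈ affW w '' ((ev f)^[m] '' (affW w ⁻¹' Y)) → eval z Q' = 0 := by
    rintro z ⟨_, ⟨y, hy, rfl⟩, e1⟩
    exact hQ2 _ _ e1.symm (by rw [← ev_iter]; exact hQ1 y (hR1 y hy))
  refine preSet_finite fin fun p ⟨hp, hp0⟩ => ?_
  by_cases hS : p ∈ S
  · exact hpre p hS
  obtain ⟨v, hv, rfl⟩ := exists_pt p
  have v0 := (rep_zero v hv).1 hp0
  obtain ⟨hu, e1⟩ := exists_inf (w := w) hv v0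
  obtain ⟨h, a, b⟩ := separate hpos he hwp (fin.subset (Set.inter_subset_inter_left _ hSY)) hu
    fun q => hS (e1 ▸ q.1)
  have key : ∀ j : ℕ, (wmap w F hF)^[m + j * l] (pt w v hv) ∈
      {p : WP w | ∃ u hu, p = infW w u hu ∧ eval u (top (wp w) Q') = 0} := fun j => by
    obtain ⟨g', hg'⟩ := exists_comp_iter F (m + j * l) (hm w Q' 0)
    have k1 := hd2 (g' * rename Fin.succ h) (fun y hy hyS => by
      rw [map_mul, eval_rename]
      by_cases h0 : y 0 = 0
      · obtain ⟨hy', e2⟩ := exists_inf (w := w) hy h0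
        rw [b _ hy' (e2 ▸ ⟨hyS, (rep_zero y hy).2 h0⟩), mul_zero]
      · obtain ⟨z, hz⟩ := exists_aff hw hy h0
        obtain ⟨hy', e2⟩ := iter_pt hom hF (m + j * l) y hy
        rw [hz, it] at e2
        rw [hg', hm_vanish hw hZ hy' (e2 ▸ Set.mem_image_of_mem _ ?_)
          (fun q => by simpa using (zero_iff e2).2 q) (hw 0), zero_mul]
        have := Pj1_per hml 0 j
        rw [zero_add] at this
        rw [← this]
        exact Set.mem_image_of_mem _ (show affW w z ∈ Y from hz ▸ hSY hyS)) v hv hp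
    rw [map_mul, eval_rename, mul_eq_zero, or_iff_left a, hg'] at k1
    obtain ⟨hv', e2⟩ := iter_pt hom hF (m + j * l) v hv
    have k2 : ∀ n p, rep p 0 = 0 → rep ((wmap w F hF)^[n] p) 0 = 0 := fun n => by
      induction n with
      | zero => exact fun _ h => h
      | succ n ih => exact fun p h => ih _ ((hL p).2 h)
    have k3 := k2 (m + j * l) _ hp0
    rw [e2, rep_zero] at k3
    obtain ⟨hu', e3⟩ := exists_inf (w := w) hv' k3
    exact ⟨_, hu', e2.trans e3, by rwa [hm_inf _ k3] at k1⟩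
  obtain ⟨i, j, hij, e4⟩ := Set.Finite.exists_lt_map_eq_of_forall_mem key
    (finite_zero_cls hw (isHom_top (wp w) Q') (top_ne_zero hQ'))
  exact pre_of_eq (Nat.add_lt_add_left (Nat.mul_lt_mul_of_pos_right hij hl) m) e4.symm

end Pool.Agent.Work.MP_0a826e_ag.W
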